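import Pool.Agent.Work.MP_8f87b2_h24.J1Ex
import Pool.Agent.Work.MP_8f87b2_mid.DisC
import Pool.Agent.Work.MP_8f87b2_h27.DisKm

/-!
MP_8f87b2_co: the gadget J1a at the T-cycle of content `(s, 3, 2)`, `R = [s][3]`, `B = [3]`, `S = [s]`, `s ≥ 4` (`TyJs`):
no common word with plain triples (types E, L, K, K', Cr, Cl).
-/

set_option autoImplicit false

namespace Pool.OddHC

open Finset Equiv BinaryTree Pool.Agent.Work.MP_8f87b2_co

namespace J1

open H1

variable {k : ℕ} {F F' : Set (Cyc k)} {g g' : DG k}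

/-- TYPE J1 with `R = [n+1][3]` (`s = n + 1`) -/
def TyJs (F : Set (Cyc k)) (g : DG k) : Prop :=
  ∃ (n : ℕ) (w0 : X k), 3 ≤ n ∧ JDat k (app (ch (n + 1)) (ch 3)) (ch 3) (ch (n + 1)) ∧
    cyc (jX (app (ch (n + 1)) (ch 3)) (ch 3) (ch (n + 1)) w0 4) =
      cyc (jX (app (ch (n + 1)) (ch 3)) (ch 3) (ch (n + 1)) w0 0) ∧
    F = {cyc (jX (app (ch (n + 1)) (ch 3)) (ch 3) (ch (n + 1)) w0 0)} ∧
    g = gadJA (jX (app (ch (n + 1)) (ch 3)) (ch 3) (ch (n + 1)) w0)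

theorem TyJs.toJ1 (h : TyJs F g) : TyJ1 F g := by
  obtain ⟨n, w0, _, h1, h2, h3, h4⟩ := h
  exact ⟨_, _, _, w0, h1, h2, h3, h4⟩

/-- existence -/
theorem exJs {s : ℕ} (hs : 4 ≤ s) (hk : s + 5 = k) (z : Cyc k) (hz : contc z = {s} + {3} + {2}) :
    ∃ g, TyJs {z} g := by
  subst hk
  obtain ⟨n, rfl⟩ : ∃ n, s = n + 1 := ⟨s - 1, by omega⟩
  obtain ⟨w, rfl⟩ := Quotient.exists_rep z
  have hd : JDat (n + 1 + 5) (app (ch (n + 1)) (ch 3)) (ch 3) (ch (n + 1)) :=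
    JDat_ss (s := n + 1) (c := 3) le_rfl (by omega)
  have e0 : OddHC.cont (app (ch (n + 1)) (ch 3)) = {n + 1} + {3} := by
    rw [cont_app, ch_cont, ch_cont]
  have c0 := jX_cont hd w
  have c4 : OddHC.cont (jX (app (ch (n + 1)) (ch 3)) (ch 3) (ch (n + 1)) w 4).1 =
      OddHC.cont (app (ch (n + 1)) (ch 3)) + {2} := by
    rw [jX_eq hd w (by norm_num), cont_z.2]
  rw [e0] at c0 c4
  have one : ∀ w w' : X (n + 1 + 5), OddHC.cont w.1 = {n + 1} + {3} + {2} →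
      OddHC.cont w'.1 = {n + 1} + {3} + {2} → TT.SameCycle w w' := fun w w' h h' => same_32 hs w w' h h'
  refine ⟨_, n, w, by omega, hd, ?_, ?_, rfl⟩
  · exact cyc_eq.2 (one _ _ c4 c0)
  · rw [show (Quotient.mk _ w : Cyc (n + 1 + 5)) = cyc w from rfl, cyc_eq.2 (one _ _ hz c0)]

/-! ### The components of the words -/

/-- `[n+1][3]` -/
def RR (n : ℕ) : BinaryTree Unit := ch n △ ch 3

theorem RR_eq (n : ℕ) : app (ch (n + 1)) (ch 3) = RR n := rfl

/-- components of the twenty words -/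
def jl (n : ℕ) : ℕ → List (BinaryTree Unit)
  | 0 => [ch n, ch 2, ch 1]
  | 1 => [ch n, ch 2, .nil, .nil]
  | 2 => [.nil, ch n, ch 2, .nil]
  | 3 => [ch n △ (ch 2 △ (.nil △ .nil))]
  | 4 => [ch 1, ch n, ch 2]
  | 5 => [.nil, .nil, ch n, ch 2]
  | 6 => [RR n, .nil]
  | 7 => [.nil △ RR n]
  | 8 => [.nil, RR n]
  | 9 => [RR n △ .nil]
  | 10 => [ch 2, ch 1, ch n]
  | 11 => [ch 2, .nil, .nil, ch n]
  | 12 => [ch (n + 1), ch 2, .nil]
  | 13 => [ch n, ch 2 △ (.nil △ .nil)]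
  | 14 => [.nil △ ch (n + 1), ch 2]
  | 15 => [.nil, ch (n + 1), ch 2]
  | 16 => [ch n, ch 3, .nil]
  | 17 => [ch (n + 1) △ ch 3]
  | 18 => [.nil, ch n, ch 3]
  | _ => [ch n △ (ch 3 △ .nil)]

theorem comps_W (n : ℕ) {i : ℕ} (hi : i < 20) : comps (W (RR n) .nil (ch 3) (ch (n + 1)) i) = jl n i := by
  interval_cases i <;> rfl

/-- the words of the gadget: new words (0, 4, 10) and old words -/
theorem TyJs.words (h : TyJs F g) : ∃ n, 3 ≤ n ∧ n + 6 = k ∧
    (∀ w ∈ g.B, ∃ i < 20, comps w.1 = jl n i) ∧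
    (∀ w : X k, comps w.1 = jl n 0 ∨ comps w.1 = jl n 4 ∨ comps w.1 = jl n 10 → cyc w ∈ F) := by
  obtain ⟨n, w0, h1, h2, h3, rfl, rfl⟩ := h
  have hk := h2.num
  rw [RR_eq] at h2 h3 ⊢
  refine ⟨n, h1, ?_, ?_, ?_⟩
  · change (app (ch (n + 1)) (ch 3)).numNodes + 2 = k at hk
    rw [num_app, ch_num, ch_num] at hk
    omega
  · intro w hw
    obtain ⟨i, hi, rfl⟩ := mem_gadJA.1 hw
    exact ⟨i, hi, by rw [jX_eq h2 w0 hi, comps_W n hi]⟩
  · have key : ∀ (w : X k) (i : ℕ), i < 20 → comps w.1 = jl n i → w = jX (RR n) (ch 3) (ch (n + 1)) w0 i := by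
      intro w i hi e
      apply Subtype.ext
      rw [jX_eq h2 w0 hi]
      exact comps_inj (by rw [e, comps_W n hi])
    rintro w (e | e | e)
    · rw [key w 0 (by norm_num) e]; rfl
    · rw [key w 4 (by norm_num) e]; exact h3
    · rw [key w 10 (by norm_num) e, ← jX_link h2 w0 (i := 0) (j := 10) (by simp)]
      exact cyc_eq.2 ⟨-2, by simp [zpow_neg, pow_succ]⟩

/-- a plain triple: only the host against all words, the new words against the old words -/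
theorem js_tri {P Q R : BinaryTree Unit} (h : IsTri P Q R F g) (h' : TyJs F' g') (hd : ∀ c ∈ F, c ∉ F')
    (key : ∀ n, 3 ≤ n → n + 6 = k →
      (∀ j, (j = 0 ∨ j = 4 ∨ j = 10) → comps (w1 Q R P) ≠ jl n j ∧ comps (w1 R P Q) ≠ jl n j) →
      ∀ i < 20, comps (w1 P Q R) ≠ jl n i ∧ comps (w1 Q R P) ≠ jl n i ∧ comps (w1 R P Q) ≠ jl n i) :
    ∀ w ∈ g.B, w ∉ g'.B := by
  obtain ⟨n, h1, h2, h3, h4⟩ := h'.words
  have hn : ∀ j, (j = 0 ∨ j = 4 ∨ j = 10) → comps (w1 Q R P) ≠ jl n j ∧ comps (w1 R P Q) ≠ jl n j := by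
    obtain ⟨a, b, c, ha, hb, hc, e1, e2, e3, rfl, rfl⟩ := h
    intro j hj
    have hF : ∀ w : X k, comps w.1 = jl n j → cyc w ∈ F' := by
      intro w e
      apply h4
      rcases hj with rfl | rfl | rfl
      · exact Or.inl e
      · exact Or.inr (Or.inl e)
      · exact Or.inr (Or.inr e)
    constructor
    · intro e
      exact hd (cyc b) (Or.inl rfl) (hF b (by rw [hb, e]))
    · intro e
      exact hd (cyc c) (Or.inr rfl) (hF c (by rw [hc, e]))
  intro w hw hw'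
  obtain ⟨i, hi, e⟩ := h3 w hw'
  obtain ⟨k1, k2, k3⟩ := key n h1 h2 hn i hi
  rcases h.words w hw with e' | ⟨_, e' | e'⟩
  · exact k1 (by rw [← e', e])
  · exact k2 (by rw [← e', e])
  · exact k3 (by rw [← e', e])

/-! ### Small facts on towers -/

theorem ch_ne_of {a b : ℕ} (h : a ≠ b) : ch a ≠ ch b := by
  intro e
  apply h
  have := congrArg BinaryTree.numNodes e
  rwa [ch_num, ch_num] at this

theorem ch_eq_iff {a b : ℕ} : ch a = ch b ↔ a = b := ⟨fun e => by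
  by_contra h
  exact ch_ne_of h e, fun e => by rw [e]⟩

theorem ch_eq_nil {a : ℕ} : ch a = .nil ↔ a = 0 := by
  constructor
  · intro e
    have := congrArg BinaryTree.numNodes e
    rw [ch_num] at this
    exact this
  · rintro rfl; rfl

theorem nil_eq_ch {a : ℕ} : (.nil : BinaryTree Unit) = ch a ↔ a = 0 := by
  rw [eq_comm, ch_eq_nil]

theorem ch_eq_node {a : ℕ} {A B : BinaryTree Unit} : ch a = A △ B ↔ ∃ b, a = b + 1 ∧ A = ch b ∧ B = .nil := by
  cases a with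
  | zero =>
    constructor
    · intro e
      change (.nil : BinaryTree Unit) = A △ B at e
      exact absurd e (by simp)
    · rintro ⟨b, h, _⟩; omega
  | succ a =>
    constructor
    · intro e
      change ch a △ .nil = A △ B at e
      have := BinaryTree.node.inj e
      exact ⟨a, rfl, this.2.1.symm, this.2.2.symm⟩
    · rintro ⟨b, h, rfl, rfl⟩
      obtain rfl : a = b := by omega
      rfl

theorem node_eq_ch {a : ℕ} {A B : BinaryTree Unit} : A △ B = ch a ↔ ∃ b, a = b + 1 ∧ A = ch b ∧ B = .nil := by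
  rw [eq_comm, ch_eq_node]

theorem ch3_ne : ch 3 ≠ .nil := by
  change ch 2 △ .nil ≠ .nil
  simp

end J1

end Pool.OddHC
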