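import Pool.Agent.Work.MP_8f87b2_h61.JsW

/-!
MP_8f87b2_co: the gadget J1a at `(s, 3, 2)` (`TyJs`) against plain triples: E, L, K, K', Cr, Cl (words).
-/

set_option autoImplicit false

namespace Pool.OddHC

open Finset Equiv BinaryTree Pool.Agent.Work.MP_8f87b2_co

namespace J1

open H1

variable {k : ℕ} {F F' : Set (Cyc k)} {g g' : DG k}

/-- last component and the rest -/
theorem snoc_inj {X Y : List (BinaryTree Unit)} {a b : BinaryTree Unit} (h : X ++ [a] = Y ++ [b]) :
    X = Y ∧ a = b := by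
  have := List.append_inj' h rfl
  exact ⟨this.1, by simpa using this.2⟩

/-- the five critical `X` -/
def CrX (n : ℕ) (X : BinaryTree Unit) : Prop :=
  comps X = [ch n, ch 2, .nil] ∨ comps X = [.nil, ch n, ch 2] ∨ comps X = [RR n] ∨
    comps X = [ch (n + 1), ch 2] ∨ comps X = [ch n, ch 3]

theorem js_E' {X : BinaryTree Unit} (h : IsTri .nil X .nil F g) (h' : TyJs F' g') (hd : ∀ c ∈ F, c ∉ F')
    (hX : ∀ n, 3 ≤ n → n + 6 = k → ¬ CrX n X) : ∀ w ∈ g.B, w ∉ g'.B := by
  refine js_tri h h' hd ?_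
  intro n hn hk _ i hi
  have hX := hX n hn hk
  have hX0 : X ≠ .nil := by
    rintro rfl
    exact h.new_ne rfl
  have hXc := comps_ne hX0
  have n0 : ch n ≠ .nil := by rw [Ne, ch_eq_nil]; omega
  have n1 : ch (n + 1) ≠ .nil := by rw [Ne, ch_eq_nil]; omega
  have n2 : ch 2 ≠ .nil := by rw [Ne, ch_eq_nil]; omega
  have n3 : ch 3 ≠ .nil := by rw [Ne, ch_eq_nil]; omega
  have n4 : ch 1 ≠ .nil := by rw [Ne, ch_eq_nil]; omega
  have eX : ∀ A, X = A → comps X = comps A := fun A e => by rw [e]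
  refine ⟨?_, ?_, ?_⟩
  · -- host (X)
    intro e
    have e1 : [X] = jl n i := e
    interval_cases i <;> simp only [jl, List.cons.injEq, reduceCtorEq, and_false, and_true] at e1
    · exact hX (Or.inl (by rw [e1]; rfl))
    · exact hX (Or.inr (Or.inl (by rw [e1]; rfl)))
    · exact hX (Or.inr (Or.inr (Or.inl (by rw [e1]; rfl))))
    · exact hX (Or.inr (Or.inr (Or.inr (Or.inl (by rw [e1]; rfl)))))
    · exact hX (Or.inr (Or.inr (Or.inr (Or.inr (by rw [e1]; rfl)))))
  · -- X()
    intro e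
    have e1 : comps X ++ [.nil] = jl n i := by rw [← e, comps_w1]; rfl
    interval_cases i
    · exact n4 (snoc_inj (Y := [ch n, ch 2]) e1).2.symm
    · exact hX (Or.inl (snoc_inj (Y := [ch n, ch 2, .nil]) e1).1)
    · exact hX (Or.inr (Or.inl (snoc_inj (Y := [.nil, ch n, ch 2]) e1).1))
    · have := (snoc_inj (Y := []) e1).1; exact hXc this
    · exact n2 (snoc_inj (Y := [ch 1, ch n]) e1).2.symm
    · exact n2 (snoc_inj (Y := [.nil, .nil, ch n]) e1).2.symm
    · exact hX (Or.inr (Or.inr (Or.inl (snoc_inj (Y := [RR n]) e1).1)))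
    · have := (snoc_inj (Y := []) e1).1; exact hXc this
    · have := (snoc_inj (Y := [.nil]) e1).2; exact absurd this (by unfold RR; simp)
    · have := (snoc_inj (Y := []) e1).1; exact hXc this
    · exact n0 (snoc_inj (Y := [ch 2, ch 1]) e1).2.symm
    · exact n0 (snoc_inj (Y := [ch 2, .nil, .nil]) e1).2.symm
    · exact hX (Or.inr (Or.inr (Or.inr (Or.inl (snoc_inj (Y := [ch (n + 1), ch 2]) e1).1))))
    · have := (snoc_inj (Y := [ch n]) e1).2; exact absurd this (by simp)
    · exact n2 (snoc_inj (Y := [.nil △ ch (n + 1)]) e1).2.symm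
    · exact n2 (snoc_inj (Y := [.nil, ch (n + 1)]) e1).2.symm
    · exact hX (Or.inr (Or.inr (Or.inr (Or.inr (snoc_inj (Y := [ch n, ch 3]) e1).1))))
    · have := (snoc_inj (Y := []) e1).1; exact hXc this
    · exact n3 (snoc_inj (Y := [.nil, ch n]) e1).2.symm
    · have := (snoc_inj (Y := []) e1).1; exact hXc this
  · -- ()X
    intro e
    have e1 : .nil :: comps X = jl n i := by rw [← e, comps_w1]; rfl
    interval_cases i <;> simp only [jl, List.cons.injEq] at e1
    · exact n0 e1.1.symm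
    · exact n0 e1.1.symm
    · exact hX (Or.inl e1.2)
    · exact absurd e1.1 (by simp)
    · exact n4 e1.1.symm
    · exact hX (Or.inr (Or.inl e1.2))
    · exact absurd e1.1 (by unfold RR; simp)
    · exact hXc e1.2
    · exact hX (Or.inr (Or.inr (Or.inl e1.2)))
    · exact hXc e1.2
    · exact n2 e1.1.symm
    · exact n2 e1.1.symm
    · exact n1 e1.1.symm
    · exact n0 e1.1.symm
    · exact absurd e1.1 (by simp)
    · exact hX (Or.inr (Or.inr (Or.inr (Or.inl e1.2))))
    · exact n0 e1.1.symm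
    · exact hXc e1.2
    · exact hX (Or.inr (Or.inr (Or.inr (Or.inr e1.2))))
    · exact hXc e1.2

/-- **L - J1** -/
theorem js_L (h : TyL F g) (h' : TyJs F' g') (hd : ∀ c ∈ F, c ∉ F') : ∀ w ∈ g.B, w ∉ g'.B := by
  obtain ⟨R', e, _, _, h3, h4, ht⟩ := h
  obtain ⟨Y, hY⟩ : ∃ Y, Y = ins R' e := ⟨_, rfl⟩
  rw [← hY] at h3 h4 ht
  refine js_tri ht h' hd ?_
  intro n hn hk _ i hi
  have n0 : ch n ≠ .nil := by rw [Ne, ch_eq_nil]; omega
  have n1 : ch (n + 1) ≠ .nil := by rw [Ne, ch_eq_nil]; omega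
  have n2 : ch 2 ≠ .nil := by rw [Ne, ch_eq_nil]; omega
  have n3 : ch 3 ≠ .nil := by rw [Ne, ch_eq_nil]; omega
  have n4 : ch 1 ≠ .nil := by rw [Ne, ch_eq_nil]; omega
  have m2 : ch 2 ≠ lp 1 := ch_ne_of (a := 2) (b := 1) (by omega)
  have m3 : ch 3 ≠ lp 1 := ch_ne_of (a := 3) (b := 1) (by omega)
  have m0 : ch n ≠ lp 1 := ch_ne_of (a := n) (b := 1) (by omega)
  have m1 : ch (n + 1) ≠ lp 1 := ch_ne_of (a := n + 1) (b := 1) (by omega)
  have m5 : RR n ≠ lp 1 := by
    intro e
    have := congrArg BinaryTree.numNodes e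
    change (ch n).numNodes + (ch 3).numNodes + 1 = 1 at this
    rw [ch_num] at this
    omega
  have m6 : (.nil : BinaryTree Unit) ≠ lp 1 := by
    change .nil ≠ (.nil △ .nil : BinaryTree Unit)
    simp
  refine ⟨?_, ?_, ?_⟩
  · intro e
    have e1 : [.nil, Y, .nil] = jl n i := e
    interval_cases i <;> simp only [jl, List.cons.injEq, reduceCtorEq, and_false, and_true, false_and] at e1
    · exact n0 e1.1.symm
    · exact n4 e1.1.symm
    · exact n2 e1.1.symm
    · exact n1 e1.1.symm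
    · exact n2 e1.2.2.symm
    · exact n0 e1.1.symm
    · exact n3 e1.2.2.symm
  · -- Y(())()
    intro e
    have e1 : (comps Y ++ [lp 1]) ++ [.nil] = jl n i := by
      rw [← e, comps_w1, List.append_assoc]; rfl
    interval_cases i
    · exact n4 (snoc_inj (Y := [ch n, ch 2]) e1).2.symm
    · exact m6 (snoc_inj (Y := [ch n, ch 2]) (snoc_inj (Y := [ch n, ch 2, .nil]) e1).1).2.symm
    · exact m2 (snoc_inj (Y := [.nil, ch n]) (snoc_inj (Y := [.nil, ch n, ch 2]) e1).1).2.symm
    · have := (snoc_inj (Y := []) e1).2; exact absurd this (by simp)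
    · exact n2 (snoc_inj (Y := [ch 1, ch n]) e1).2.symm
    · exact n2 (snoc_inj (Y := [.nil, .nil, ch n]) e1).2.symm
    · exact m5 (snoc_inj (Y := []) (snoc_inj (Y := [RR n]) e1).1).2.symm
    · have := (snoc_inj (Y := []) e1).2; exact absurd this (by simp)
    · have := (snoc_inj (Y := [.nil]) e1).2; exact absurd this (by unfold RR; simp)
    · have := (snoc_inj (Y := []) e1).2; exact absurd this (by simp)
    · exact n0 (snoc_inj (Y := [ch 2, ch 1]) e1).2.symm
    · exact n0 (snoc_inj (Y := [ch 2, .nil, .nil]) e1).2.symm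
    · exact m2 (snoc_inj (Y := [ch (n + 1)]) (snoc_inj (Y := [ch (n + 1), ch 2]) e1).1).2.symm
    · have := (snoc_inj (Y := [ch n]) e1).2; exact absurd this (by simp)
    · exact n2 (snoc_inj (Y := [.nil △ ch (n + 1)]) e1).2.symm
    · exact n2 (snoc_inj (Y := [.nil, ch (n + 1)]) e1).2.symm
    · exact m3 (snoc_inj (Y := [ch n]) (snoc_inj (Y := [ch n, ch 3]) e1).1).2.symm
    · have := (snoc_inj (Y := []) e1).2; exact absurd this (by simp)
    · exact n3 (snoc_inj (Y := [.nil, ch n]) e1).2.symm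
    · have := (snoc_inj (Y := []) e1).2; exact absurd this (by simp)
  · -- ()(())Y
    intro e
    have e1 : .nil :: lp 1 :: comps Y = jl n i := by rw [← e, comps_w1]; rfl
    interval_cases i <;> simp only [jl, List.cons.injEq, reduceCtorEq, and_false, false_and] at e1
    · exact n0 e1.1.symm
    · exact n0 e1.1.symm
    · exact m0 e1.2.1.symm
    · exact n4 e1.1.symm
    · exact m6 e1.2.1.symm
    · exact absurd e1.1 (by unfold RR; simp)
    · exact m5 e1.2.1.symm
    · exact n2 e1.1.symm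
    · exact n2 e1.1.symm
    · exact n1 e1.1.symm
    · exact n0 e1.1.symm
    · exact m1 e1.2.1.symm
    · exact n0 e1.1.symm
    · exact m0 e1.2.1.symm

end J1

end Pool.OddHC
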