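import Pool.Agent.Work.MP_8f87b2_h61.JsPl
import Pool.Agent.Work.MP_8f87b2_h71ae.ALT

/-!
MP_8f87b2_co: the gadget J1a at `(s, 3, 2)` against E (low), K, K', Cr, Cl, C (words).
-/

set_option autoImplicit false

namespace Pool.OddHC

open Finset Equiv BinaryTree Pool.Agent.Work.MP_8f87b2_co

namespace J1

open H1

variable {k : ℕ} {F F' : Set (Cyc k)} {g g' : DG k}

theorem cont_RR (n : ℕ) : OddHC.cont (RR n) = {n + 1} + {3} := by
  rw [← RR_eq, cont_app, ch_cont, ch_cont]

theorem sup_two (a b : ℕ) : (({a} + {b} : Multiset ℕ)).sup = max a b := by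
  rw [sup_add', Multiset.sup_singleton, Multiset.sup_singleton]

/-- the first four critical words are not low -/
theorem crX_low {n : ℕ} (hn : 3 ≤ n) {X : BinaryTree Unit} (h : CrX n X) :
    (fh X ≠ 2 ∧ (OddHC.cont X).count 2 = 0 ∧ 1 ≤ (OddHC.cont X).count 3) ∨ comps X = [ch n, ch 3] := by
  rcases h with h | h | h | h | h
  · left
    have e : X = app (ch (n + 1)) (app (ch 3) (ch 1)) := comps_inj (h.trans rfl)
    have hc : OddHC.cont X = {n + 1} + ({3} + {1}) := by
      rw [e, cont_app, cont_app, ch_cont, ch_cont, ch_cont]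
    refine ⟨?_, ?_, ?_⟩
    · rw [e]
      change (if isNil (ch n) = true then _ else OddHC.ht (ch n)) ≠ 2
      rw [if_neg (by rw [isNil_f.2 (by rw [Ne, ch_eq_nil]; omega)]; simp), ch_ht]
      omega
    · rw [hc]
      simp only [Multiset.count_add, Multiset.count_singleton]
      rw [if_neg (by omega), if_neg (by omega), if_neg (by omega)]
    · rw [hc]
      simp only [Multiset.count_add, Multiset.count_singleton]
      rw [if_pos trivial]
      omega
  · left
    have e : X = app (ch 1) (app (ch (n + 1)) (ch 3)) := comps_inj (h.trans rfl)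
    have hc : OddHC.cont X = {1} + ({n + 1} + {3}) := by
      rw [e, cont_app, cont_app, ch_cont, ch_cont, ch_cont]
    refine ⟨?_, ?_, ?_⟩
    · rw [e]
      change (if isNil (ch n) = true then _ else OddHC.ht (ch n)) ≠ 2
      rw [if_neg (by rw [isNil_f.2 (by rw [Ne, ch_eq_nil]; omega)]; simp), ch_ht]
      omega
    · rw [hc]
      simp only [Multiset.count_add, Multiset.count_singleton]
      rw [if_neg (by omega), if_neg (by omega), if_neg (by omega)]
    · rw [hc]
      simp only [Multiset.count_add, Multiset.count_singleton]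
      rw [if_pos trivial]
      omega
  · left
    have e : X = RR n △ .nil := comps_inj (h.trans rfl)
    have hs : (OddHC.cont (RR n)).sup = n + 1 := by
      rw [cont_RR, sup_two]
      omega
    have hc : ∀ b, b ≤ 3 → (OddHC.cont X).count b = (OddHC.cont (RR n)).count b := by
      intro b hb
      rw [e, cont_node, cont_nil, add_zero]
      exact count_raise b (by rw [hs]; omega) (by rw [hs]; omega)
    refine ⟨?_, ?_, ?_⟩
    · rw [e]
      change (if isNil (RR n) = true then _ else OddHC.ht (RR n)) ≠ 2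
      rw [if_neg (by rw [isNil_f.2 (by unfold RR; simp)]; simp), OddHC.ht_eq, hs]
      omega
    · rw [hc 2 (by omega), cont_RR]
      simp only [Multiset.count_add, Multiset.count_singleton]
      rw [if_neg (by omega), if_neg (by omega)]
    · rw [hc 3 (by omega), cont_RR]
      simp only [Multiset.count_add, Multiset.count_singleton]
      rw [if_pos trivial]
      omega
  · left
    have e : X = app (ch (n + 2)) (ch 3) := comps_inj (h.trans rfl)
    have hc : OddHC.cont X = {n + 2} + {3} := by
      rw [e, cont_app, ch_cont, ch_cont]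
    refine ⟨?_, ?_, ?_⟩
    · rw [e]
      change (if isNil (ch (n + 1)) = true then _ else OddHC.ht (ch (n + 1))) ≠ 2
      rw [if_neg (by rw [isNil_f.2 (by rw [Ne, ch_eq_nil]; omega)]; simp), ch_ht]
      omega
    · rw [hc]
      simp only [Multiset.count_add, Multiset.count_singleton]
      rw [if_neg (by omega), if_neg (by omega)]
    · rw [hc]
      simp only [Multiset.count_add, Multiset.count_singleton]
      rw [if_pos trivial]
      omega
  · exact Or.inr h

/-- **E - J1** if the pair is not over a deep cycle -/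
theorem js_E (h : TyE F g) (h' : TyJs F' g') (hd : ∀ c ∈ F, c ∉ F')
    (hnd : ∃ c ∈ F, 2 ∈ contc c ∨ 3 ∈ contc c) : ∀ w ∈ g.B, w ∉ g'.B := by
  obtain ⟨j, r, f, hj, hL, ht⟩ := h
  have he : (lf f).length = 2 * r.1.numNodes + 1 := by rw [lf_length, X_num]
  obtain ⟨l1, l2⟩ := low_fh he hL
  refine js_E' ht h' hd ?_
  intro n hn hk hX
  rcases crX_low hn hX with ⟨h1, h2, h3⟩ | h5
  · exact h1 (l2 h2 h3)
  · -- X = [n+1][4]
    obtain ⟨X, hXe⟩ : ∃ X, X = ins r.1 (lf f) := ⟨_, rfl⟩
    rw [← hXe] at h5 ht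
    have e : X = app (ch (n + 1)) (ch 4) := comps_inj (h5.trans rfl)
    have hc : OddHC.cont X = {n + 1} + {4} := by
      rw [e, cont_app, ch_cont, ch_cont]
    obtain ⟨a, b, c, ha, hb, hc', e1, e2, e3, rfl, rfl⟩ := ht
    obtain ⟨d, hd1, hd2⟩ := hnd
    have hcont : contc d = {n + 1} + {4} + {1} := by
      rcases hd1 with rfl | rfl
      · change OddHC.cont b.1 = _
        rw [hb]
        change OddHC.cont (app X (.nil △ .nil)) = _
        rw [cont_app, hc]
        rfl
      · change OddHC.cont c.1 = _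
        rw [hc']
        change OddHC.cont (app (ch 1) X) = _
        rw [cont_app, hc, ch_cont, add_comm]
    rw [hcont] at hd2
    simp only [Multiset.mem_add, Multiset.mem_singleton] at hd2
    omega

/-- **K - J1** -/
theorem js_K {S : BinaryTree Unit} (h : TyK S F g) (h' : TyJs F' g') (hd : ∀ c ∈ F, c ∉ F')
    (hS : S ≠ .nil) : ∀ w ∈ g.B, w ∉ g'.B := by
  refine js_tri h h' hd ?_
  intro n hn hk hz i hi
  have n0 : ch n ≠ .nil := by rw [Ne, ch_eq_nil]; omega
  have n1 : ch (n + 1) ≠ .nil := by rw [Ne, ch_eq_nil]; omega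
  have n2 : ch 2 ≠ .nil := by rw [Ne, ch_eq_nil]; omega
  have n3 : ch 3 ≠ .nil := by rw [Ne, ch_eq_nil]; omega
  have n4 : ch 1 ≠ .nil := by rw [Ne, ch_eq_nil]; omega
  have m2 : ch 2 ≠ ch 1 := ch_ne_of (by omega)
  have m3 : ch 3 ≠ ch 1 := ch_ne_of (by omega)
  have m0 : ch n ≠ ch 1 := ch_ne_of (by omega)
  have m5 : RR n ≠ ch 1 := by
    intro e
    have := congrArg BinaryTree.numNodes e
    change (ch n).numNodes + (ch 3).numNodes + 1 = 1 at this
    rw [ch_num] at this
    omega
  have z1 := hz 0 (Or.inl rfl)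
  have hne : S ≠ RR n := by
    rintro rfl
    apply z1.1
    rfl
  refine ⟨?_, ?_, ?_⟩
  · intro e
    have e1 : [S, .nil] = jl n i := e
    interval_cases i <;> simp only [jl, List.cons.injEq, reduceCtorEq, and_false, and_true, false_and] at e1
    · exact hne e1
    · exact absurd e1.2.symm (by unfold RR; simp)
    · exact n2 e1.2.symm
  · -- S(())
    intro e
    have e1 : comps S ++ [ch 1] = jl n i := by rw [← e, comps_w1]; rfl
    interval_cases i
    · exact z1.1 e
    · exact n4 (snoc_inj (Y := [ch n, ch 2, .nil]) e1).2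
    · exact n4 (snoc_inj (Y := [.nil, ch n, ch 2]) e1).2
    · have := (snoc_inj (Y := []) e1).1; exact comps_ne hS this
    · exact m2 (snoc_inj (Y := [ch 1, ch n]) e1).2.symm
    · exact m2 (snoc_inj (Y := [.nil, .nil, ch n]) e1).2.symm
    · exact n4 (snoc_inj (Y := [RR n]) e1).2
    · have := (snoc_inj (Y := []) e1).1; exact comps_ne hS this
    · exact m5 (snoc_inj (Y := [.nil]) e1).2.symm
    · have := (snoc_inj (Y := []) e1).1; exact comps_ne hS this
    · exact m0 (snoc_inj (Y := [ch 2, ch 1]) e1).2.symm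
    · exact m0 (snoc_inj (Y := [ch 2, .nil, .nil]) e1).2.symm
    · exact n4 (snoc_inj (Y := [ch (n + 1), ch 2]) e1).2
    · have := congrArg BinaryTree.numNodes (snoc_inj (Y := [ch n]) e1).2
      change 1 = (ch 2).numNodes + 1 + 1 at this
      omega
    · exact m2 (snoc_inj (Y := [.nil △ ch (n + 1)]) e1).2.symm
    · exact m2 (snoc_inj (Y := [.nil, ch (n + 1)]) e1).2.symm
    · exact n4 (snoc_inj (Y := [ch n, ch 3]) e1).2
    · have := (snoc_inj (Y := []) e1).1; exact comps_ne hS this
    · exact m3 (snoc_inj (Y := [.nil, ch n]) e1).2.symm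
    · have := (snoc_inj (Y := []) e1).1; exact comps_ne hS this
  · -- ()()S
    intro e
    have e1 : .nil :: .nil :: comps S = jl n i := by rw [← e, comps_w1]; rfl
    interval_cases i <;> simp only [jl, List.cons.injEq, reduceCtorEq, and_false, false_and] at e1
    · exact n0 e1.1.symm
    · exact n0 e1.1.symm
    · exact n0 e1.2.1.symm
    · exact n4 e1.1.symm
    · apply hne
      apply comps_inj
      rw [e1.2.2]
      rfl
    · exact absurd e1.1 (by unfold RR; simp)
    · exact absurd e1.2.1 (by unfold RR; simp)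
    · exact n2 e1.1.symm
    · exact n2 e1.1.symm
    · exact n1 e1.1.symm
    · exact n1 e1.2.1.symm
    · exact n0 e1.1.symm
    · exact n0 e1.2.1.symm

/-- **K' - J1** -/
theorem js_K' {S : BinaryTree Unit} (h : TyK' S F g) (h' : TyJs F' g') (hd : ∀ c ∈ F, c ∉ F')
    (hS : S ≠ .nil) : ∀ w ∈ g.B, w ∉ g'.B := by
  refine js_tri h h' hd ?_
  intro n hn hk hz i hi
  have n0 : ch n ≠ .nil := by rw [Ne, ch_eq_nil]; omega
  have n1 : ch (n + 1) ≠ .nil := by rw [Ne, ch_eq_nil]; omega
  have n2 : ch 2 ≠ .nil := by rw [Ne, ch_eq_nil]; omega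
  have n3 : ch 3 ≠ .nil := by rw [Ne, ch_eq_nil]; omega
  have n4 : ch 1 ≠ .nil := by rw [Ne, ch_eq_nil]; omega
  have m2 : ch 2 ≠ ch 1 := ch_ne_of (by omega)
  have m3 : ch 3 ≠ ch 1 := ch_ne_of (by omega)
  have m0 : ch n ≠ ch 1 := ch_ne_of (by omega)
  have m1 : ch (n + 1) ≠ ch 1 := ch_ne_of (by omega)
  have m5 : RR n ≠ ch 1 := by
    intro e
    have := congrArg BinaryTree.numNodes e
    change (ch n).numNodes + (ch 3).numNodes + 1 = 1 at this
    rw [ch_num] at this
    omega
  have z4 := hz 4 (Or.inr (Or.inl rfl))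
  have hne : S ≠ RR n := by
    rintro rfl
    apply z4.2
    rfl
  refine ⟨?_, ?_, ?_⟩
  · intro e
    have e1 : [.nil, S] = jl n i := e
    interval_cases i <;> simp only [jl, List.cons.injEq, reduceCtorEq, and_false, and_true, false_and] at e1
    · exact absurd e1.1 (by unfold RR; simp)
    · exact hne e1.2
    · exact n0 e1.1.symm
  · -- S()()
    intro e
    have e1 : (comps S ++ [.nil]) ++ [.nil] = jl n i := by rw [← e, comps_w1, List.append_assoc]; rfl
    interval_cases i
    · exact n4 (snoc_inj (Y := [ch n, ch 2]) e1).2.symm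
    · apply hne
      apply comps_inj
      exact (snoc_inj (Y := [ch n, ch 2]) (snoc_inj (Y := [ch n, ch 2, .nil]) e1).1).1
    · exact n2 (snoc_inj (Y := [.nil, ch n]) (snoc_inj (Y := [.nil, ch n, ch 2]) e1).1).2.symm
    · have := (snoc_inj (Y := []) e1).2; exact absurd this (by simp)
    · exact n2 (snoc_inj (Y := [ch 1, ch n]) e1).2.symm
    · exact n2 (snoc_inj (Y := [.nil, .nil, ch n]) e1).2.symm
    · exact absurd (snoc_inj (Y := []) (snoc_inj (Y := [RR n]) e1).1).2 (by unfold RR; simp)
    · have := (snoc_inj (Y := []) e1).2; exact absurd this (by simp)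
    · have := (snoc_inj (Y := [.nil]) e1).2; exact absurd this (by unfold RR; simp)
    · have := (snoc_inj (Y := []) e1).2; exact absurd this (by simp)
    · exact n0 (snoc_inj (Y := [ch 2, ch 1]) e1).2.symm
    · exact n0 (snoc_inj (Y := [ch 2, .nil, .nil]) e1).2.symm
    · exact n2 (snoc_inj (Y := [ch (n + 1)]) (snoc_inj (Y := [ch (n + 1), ch 2]) e1).1).2.symm
    · have := (snoc_inj (Y := [ch n]) e1).2; exact absurd this (by simp)
    · exact n2 (snoc_inj (Y := [.nil △ ch (n + 1)]) e1).2.symm
    · exact n2 (snoc_inj (Y := [.nil, ch (n + 1)]) e1).2.symm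
    · exact n3 (snoc_inj (Y := [ch n]) (snoc_inj (Y := [ch n, ch 3]) e1).1).2.symm
    · have := (snoc_inj (Y := []) e1).2; exact absurd this (by simp)
    · exact n3 (snoc_inj (Y := [.nil, ch n]) e1).2.symm
    · have := (snoc_inj (Y := []) e1).2; exact absurd this (by simp)
  · -- (())S
    intro e
    have e1 : ch 1 :: comps S = jl n i := by rw [← e, comps_w1]; rfl
    interval_cases i <;> simp only [jl, List.cons.injEq] at e1
    · exact m0 e1.1.symm
    · exact m0 e1.1.symm
    · exact n4 e1.1
    · exact comps_ne hS e1.2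
    · exact z4.2 e
    · exact n4 e1.1
    · exact m5 e1.1.symm
    · exact comps_ne hS e1.2
    · exact n4 e1.1
    · exact comps_ne hS e1.2
    · exact m2 e1.1.symm
    · exact m2 e1.1.symm
    · exact m1 e1.1.symm
    · exact m0 e1.1.symm
    · have := congrArg BinaryTree.numNodes e1.1
      change 1 = 0 + (ch (n + 1)).numNodes + 1 at this
      rw [ch_num] at this
      omega
    · exact n4 e1.1
    · exact m0 e1.1.symm
    · exact comps_ne hS e1.2
    · exact n4 e1.1
    · exact comps_ne hS e1.2

end J1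

end Pool.OddHC
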