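import Pool.Agent.Work.MP_8f87b2_h61.JsE

/-!
MP_8f87b2_co: the gadget J1a at `(s, 3, 2)` against the content links C, C' (words).
-/

set_option autoImplicit false

namespace Pool.OddHC

open Finset Equiv BinaryTree Pool.Agent.Work.MP_8f87b2_co

namespace J1

open H1

variable {k : ℕ} {F F' : Set (Cyc k)} {g g' : DG k}

theorem ch_ne_node {a : ℕ} {A B : BinaryTree Unit} (hB : B ≠ .nil) : ch a ≠ A △ B := by
  intro e
  obtain ⟨b, _, _, h⟩ := ch_eq_node.1 e
  exact hB h

theorem fb_of {R : BinaryTree Unit} {l : List (BinaryTree Unit)} (h : comps R = .nil :: l) : fb R = true := by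
  cases R with
  | nil => cases h
  | node _ A B =>
    rw [comps, List.cons.injEq] at h
    rw [h.1]
    rfl

/-- **C - J1**: host `(R)[c]`, new words `R[c+1]`, `[c]()R` -/
theorem js_C {c : ℕ} {R : BinaryTree Unit} (h : TyC c R F g) (h' : TyJs F' g') (hd : ∀ c ∈ F, c ∉ F')
    (hc : 2 ≤ c) (hR : c + 1 ≤ OddHC.ht R) (hf : fb R = false)
    (hp : ∀ n, R ≠ (.nil △ ch (n + 1)) △ .nil) : ∀ w ∈ g.B, w ∉ g'.B := by
  refine js_tri h h' hd ?_
  intro n hn hk hz i hi
  have n0 : ch n ≠ .nil := by rw [Ne, ch_eq_nil]; omega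
  have n2 : ch 2 ≠ .nil := by rw [Ne, ch_eq_nil]; omega
  have n3 : ch 3 ≠ .nil := by rw [Ne, ch_eq_nil]; omega
  have n4 : ch 1 ≠ .nil := by rw [Ne, ch_eq_nil]; omega
  have nc : ch c ≠ .nil := by rw [Ne, ch_eq_nil]; omega
  have nc1 : ch (c - 1) ≠ .nil := by rw [Ne, ch_eq_nil]; omega
  have hR0 : R ≠ .nil := ht_ge_ne hR
  have hR1 := comps_ne hR0
  have hfb : ∀ l, comps R ≠ .nil :: l := by
    intro l e
    rw [fb_of e] at hf
    exact absurd hf (by simp)
  have lf0 : (.nil △ .nil : BinaryTree Unit) ≠ .nil := by simp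
  have hcc : comps (ch c) = [ch (c - 1)] := comps_ch' (by omega)
  refine ⟨?_, ?_, ?_⟩
  · intro e
    have e1 : [R, ch (c - 1)] = jl n i := by rw [← e, comps_w1, hcc]; rfl
    interval_cases i <;> simp only [jl, List.cons.injEq, reduceCtorEq, and_false, and_true, false_and] at e1
    · exact nc1 e1.2
    · exact hR0 e1.1
    · exact ch_ne_node lf0 e1.2
    · exact hfb [ch n] (by rw [e1.1]; rfl)
  · -- R[c+1]
    intro e
    have e1 : comps R ++ [ch c] = jl n i := by rw [← e, comps_w1]; rfl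
    interval_cases i
    · have := ch_eq_iff.1 (snoc_inj (Y := [ch n, ch 2]) e1).2; omega
    · exact nc (snoc_inj (Y := [ch n, ch 2, .nil]) e1).2
    · exact nc (snoc_inj (Y := [.nil, ch n, ch 2]) e1).2
    · exact hR1 (snoc_inj (Y := []) e1).1
    · exact (hz 4 (Or.inr (Or.inl rfl))).1 e
    · exact hfb _ (snoc_inj (Y := [.nil, .nil, ch n]) e1).1
    · exact nc (snoc_inj (Y := [RR n]) e1).2
    · exact hR1 (snoc_inj (Y := []) e1).1
    · exact hfb _ (snoc_inj (Y := [.nil]) e1).1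
    · exact hR1 (snoc_inj (Y := []) e1).1
    · exact (hz 10 (Or.inr (Or.inr rfl))).1 e
    · have h1 := snoc_inj (Y := [ch 2, .nil, .nil]) e1
      have h2 : R = ch 2 △ (.nil △ (.nil △ .nil)) := comps_inj (h1.1.trans rfl)
      have h3 := ch_eq_iff.1 h1.2
      rw [h2] at hR
      have h4 : OddHC.ht (ch 2 △ (.nil △ (.nil △ .nil))) = 3 := rfl
      omega
    · exact nc (snoc_inj (Y := [ch (n + 1), ch 2]) e1).2
    · exact ch_ne_node lf0 (snoc_inj (Y := [ch n]) e1).2
    · exact hp n (comps_inj ((snoc_inj (Y := [.nil △ ch (n + 1)]) e1).1.trans rfl))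
    · exact hfb _ (snoc_inj (Y := [.nil, ch (n + 1)]) e1).1
    · exact nc (snoc_inj (Y := [ch n, ch 3]) e1).2
    · exact hR1 (snoc_inj (Y := []) e1).1
    · exact hfb _ (snoc_inj (Y := [.nil, ch n]) e1).1
    · exact hR1 (snoc_inj (Y := []) e1).1
  · -- [c]()R
    intro e
    have e1 : ch (c - 1) :: .nil :: comps R = jl n i := by rw [← e, comps_w1, hcc]; rfl
    interval_cases i <;> simp only [jl, List.cons.injEq] at e1
    · exact n2 e1.2.1.symm
    · exact n2 e1.2.1.symm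
    · exact nc1 e1.1
    · exact absurd e1.2 (by simp)
    · exact n0 e1.2.1.symm
    · exact nc1 e1.1
    · exact hR1 e1.2.2
    · exact absurd e1.2 (by simp)
    · exact nc1 e1.1
    · exact absurd e1.2 (by simp)
    · exact n4 e1.2.1.symm
    · exact hfb _ e1.2.2
    · exact n2 e1.2.1.symm
    · exact absurd e1.2.1 (by simp)
    · exact n2 e1.2.1.symm
    · exact nc1 e1.1
    · exact n3 e1.2.1.symm
    · exact absurd e1.2 (by simp)
    · exact nc1 e1.1
    · exact absurd e1.2 (by simp)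

/-- **C' - J1**: host `[c](R)`, new words `[c+1]R`, `R()[c]` -/
theorem js_C' {c : ℕ} {R : BinaryTree Unit} (h : TyC' c R F g) (h' : TyJs F' g') (hd : ∀ c ∈ F, c ∉ F')
    (hc : 2 ≤ c) (hR : c + 1 ≤ OddHC.ht R) (hf : fb R = false) (hk13 : 13 ≤ k) : ∀ w ∈ g.B, w ∉ g'.B := by
  refine js_tri h h' hd ?_
  intro n hn hk hz i hi
  have n0 : ch n ≠ .nil := by rw [Ne, ch_eq_nil]; omega
  have n1 : ch (n + 1) ≠ .nil := by rw [Ne, ch_eq_nil]; omega
  have n2 : ch 2 ≠ .nil := by rw [Ne, ch_eq_nil]; omega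
  have n3 : ch 3 ≠ .nil := by rw [Ne, ch_eq_nil]; omega
  have n4 : ch 1 ≠ .nil := by rw [Ne, ch_eq_nil]; omega
  have nc : ch c ≠ .nil := by rw [Ne, ch_eq_nil]; omega
  have nc1 : ch (c - 1) ≠ .nil := by rw [Ne, ch_eq_nil]; omega
  have hR0 : R ≠ .nil := ht_ge_ne hR
  have hR1 := comps_ne hR0
  have hfb : ∀ l, comps R ≠ .nil :: l := by
    intro l e
    rw [fb_of e] at hf
    exact absurd hf (by simp)
  have lf0 : (.nil △ .nil : BinaryTree Unit) ≠ .nil := by simp
  have hcc : comps (ch c) = [ch (c - 1)] := comps_ch' (by omega)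
  have hRR : ∀ a, ch a ≠ RR n := fun a => ch_ne_node n3
  refine ⟨?_, ?_, ?_⟩
  · intro e
    have e1 : [ch (c - 1), R] = jl n i := by rw [← e, comps_w1, hcc]; rfl
    interval_cases i <;> simp only [jl, List.cons.injEq, reduceCtorEq, and_false, and_true, false_and] at e1
    · exact hR0 e1.2
    · exact nc1 e1.1
    · have h3 := ch_eq_iff.1 e1.1
      have h2 := e1.2
      rw [h2] at hR
      have h4 : OddHC.ht (ch 2 △ (.nil △ .nil)) = 3 := rfl
      omega
    · exact ch_ne_node n1 e1.1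
  · -- R()[c]
    intro e
    have e1 : (comps R ++ [.nil]) ++ [ch (c - 1)] = jl n i := by
      rw [← e, comps_w1, List.append_assoc, hcc]; rfl
    interval_cases i
    · exact n2 (snoc_inj (Y := [ch n]) (snoc_inj (Y := [ch n, ch 2]) e1).1).2.symm
    · exact nc1 (snoc_inj (Y := [ch n, ch 2, .nil]) e1).2
    · exact nc1 (snoc_inj (Y := [.nil, ch n, ch 2]) e1).2
    · exact absurd (snoc_inj (Y := []) e1).1 (by simp)
    · exact n0 (snoc_inj (Y := [ch 1]) (snoc_inj (Y := [ch 1, ch n]) e1).1).2.symm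
    · exact n0 (snoc_inj (Y := [.nil, .nil]) (snoc_inj (Y := [.nil, .nil, ch n]) e1).1).2.symm
    · exact nc1 (snoc_inj (Y := [RR n]) e1).2
    · exact absurd (snoc_inj (Y := []) e1).1 (by simp)
    · exact hRR _ (snoc_inj (Y := [.nil]) e1).2
    · exact absurd (snoc_inj (Y := []) e1).1 (by simp)
    · exact n4 (snoc_inj (Y := [ch 2]) (snoc_inj (Y := [ch 2, ch 1]) e1).1).2.symm
    · have h1 := snoc_inj (Y := [ch 2, .nil, .nil]) e1
      have h2 : R = ch 2 △ (.nil △ .nil) :=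
        comps_inj ((snoc_inj (Y := [ch 2, .nil]) h1.1).1.trans rfl)
      have h3 := ch_eq_iff.1 h1.2
      rw [h2] at hR
      have h4 : OddHC.ht (ch 2 △ (.nil △ .nil)) = 3 := rfl
      omega
    · exact nc1 (snoc_inj (Y := [ch (n + 1), ch 2]) e1).2
    · exact ch_ne_node lf0 (snoc_inj (Y := [ch n]) e1).2
    · exact absurd (snoc_inj (Y := []) (snoc_inj (Y := [.nil △ ch (n + 1)]) e1).1).2 (by simp)
    · exact n1 (snoc_inj (Y := [.nil]) (snoc_inj (Y := [.nil, ch (n + 1)]) e1).1).2.symm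
    · exact nc1 (snoc_inj (Y := [ch n, ch 3]) e1).2
    · exact absurd (snoc_inj (Y := []) e1).1 (by simp)
    · exact n0 (snoc_inj (Y := [.nil]) (snoc_inj (Y := [.nil, ch n]) e1).1).2.symm
    · exact absurd (snoc_inj (Y := []) e1).1 (by simp)
  · -- [c+1]R
    intro e
    have e1 : ch c :: comps R = jl n i := by rw [← e, comps_w1]; rfl
    interval_cases i <;> simp only [jl, List.cons.injEq] at e1
    · exact (hz 0 (Or.inl rfl)).2 e
    · have h2 : R = ch 2 △ (.nil △ (.nil △ .nil)) := comps_inj (e1.2.trans rfl)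
      have h3 := ch_eq_iff.1 e1.1
      rw [h2] at hR
      have h4 : OddHC.ht (ch 2 △ (.nil △ (.nil △ .nil))) = 3 := rfl
      omega
    · exact nc e1.1
    · exact hR1 e1.2
    · exact (hz 4 (Or.inr (Or.inl rfl))).2 e
    · exact nc e1.1
    · exact hRR _ e1.1
    · exact hR1 e1.2
    · exact nc e1.1
    · exact hR1 e1.2
    · exact (hz 10 (Or.inr (Or.inr rfl))).2 e
    · exact hfb _ e1.2
    · have h2 : R = ch 2 △ (.nil △ .nil) := comps_inj (e1.2.trans rfl)
      have h3 := ch_eq_iff.1 e1.1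
      rw [h2] at hR
      have h4 : OddHC.ht (ch 2 △ (.nil △ .nil)) = 3 := rfl
      omega
    · have h2 : R = (ch 2 △ (.nil △ .nil)) △ .nil := comps_inj (e1.2.trans rfl)
      have h3 := ch_eq_iff.1 e1.1
      rw [h2] at hR
      have h4 : OddHC.ht ((ch 2 △ (.nil △ .nil)) △ .nil) = 4 := rfl
      omega
    · exact ch_ne_node n1 e1.1
    · exact nc e1.1
    · have h2 : R = ch 3 △ (.nil △ .nil) := comps_inj (e1.2.trans rfl)
      have h3 := ch_eq_iff.1 e1.1
      rw [h2] at hR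
      have h4 : OddHC.ht (ch 3 △ (.nil △ .nil)) = 4 := rfl
      omega
    · exact hR1 e1.2
    · exact nc e1.1
    · exact hR1 e1.2

end J1

end Pool.OddHC
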