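import Pool.Agent.Work.MP_8f87b2_h61.JsC
import Pool.Agent.Work.MP_8f87b2_h62.W3f
import Pool.Agent.Work.MP_8f87b2_h60.TyA0
import Pool.Agent.Work.MP_8f87b2_h27.MarkTri

/-!
MP_8f87b2_co: the gadget J1a at `(s, 3, 2)`, `k ≥ 13`, against the windows T, A0, A (words).
-/

set_option autoImplicit false

namespace Pool.OddHC

open Finset Equiv BinaryTree Pool.Agent.Work.MP_8f87b2_co

namespace J1

open H1

variable {k : ℕ} {F F' : Set (Cyc k)} {g g' : DG k}

/-- contents of the twenty words -/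
def jc (n : ℕ) : ℕ → Multiset ℕ
  | 0 => {3} + {2} + {n + 1}
  | 1 => {3} + {1} + {1} + {n + 1}
  | 2 => {3} + {1} + {1} + {n + 1}
  | 3 => {3} + {1} + {n + 2}
  | 4 => {3} + {2} + {n + 1}
  | 5 => {3} + {1} + {1} + {n + 1}
  | 6 => {3} + {1} + {n + 2}
  | 7 => {3} + {1} + {n + 2}
  | 8 => {3} + {1} + {n + 2}
  | 9 => {3} + {n + 3}
  | 10 => {3} + {2} + {n + 1}
  | 11 => {3} + {1} + {1} + {n + 1}
  | 12 => {3} + {1} + {n + 2}
  | 13 => {4} + {1} + {n + 1}
  | 14 => {3} + {1} + {n + 2}
  | 15 => {3} + {1} + {n + 2}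
  | 16 => {4} + {1} + {n + 1}
  | 17 => {3} + {n + 3}
  | 18 => {4} + {1} + {n + 1}
  | _ => {4} + {n + 2}

theorem raise_top {L : Multiset ℕ} {c : ℕ} (hL : ∀ x ∈ L, x < c) : raise (L + {c}) = L + {c + 1} := by
  have h0 : ({c} : Multiset ℕ) ≠ 0 := by simp
  rw [raise_add (c := c) hL (by intro x hx; rw [Multiset.mem_singleton] at hx; omega) h0, raise_single]

theorem cont_W (n : ℕ) (hn : 4 ≤ n) {i : ℕ} (hi : i < 20) :
    OddHC.cont (W (RR n) .nil (ch 3) (ch (n + 1)) i) = jc n i := by
  have cR : OddHC.cont (RR n) = {3} + {n + 1} := by rw [cont_RR, add_comm]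
  have cS : OddHC.cont (ch (n + 1)) = {n + 1} := ch_cont n
  have c3 : OddHC.cont (ch 3) = {3} := ch_cont 2
  have c0 : raise (OddHC.cont (.nil : BinaryTree Unit)) = {1} := by rw [cont_nil, raise_zero]
  have cn : OddHC.cont (.nil : BinaryTree Unit) = 0 := cont_nil
  have l3 : ∀ x ∈ ({3} : Multiset ℕ), x < n + 1 := by
    intro x hx; rw [Multiset.mem_singleton] at hx; omega
  have l3' : ∀ x ∈ ({3} : Multiset ℕ), x < n + 2 := by
    intro x hx; rw [Multiset.mem_singleton] at hx; omega
  have l31 : ∀ x ∈ ({3} + {1} : Multiset ℕ), x < n + 1 := by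
    intro x hx; rw [Multiset.mem_add, Multiset.mem_singleton, Multiset.mem_singleton] at hx; omega
  have l1 : ∀ x ∈ ({1} : Multiset ℕ), x < n + 1 := by
    intro x hx; rw [Multiset.mem_singleton] at hx; omega
  have l1' : ∀ x ∈ ({1} : Multiset ℕ), x < 3 := by
    intro x hx; rw [Multiset.mem_singleton] at hx; omega
  have l4 : ∀ x ∈ ({4} : Multiset ℕ), x < n + 1 := by
    intro x hx; rw [Multiset.mem_singleton] at hx; omega
  have r1 : raise ({3} + {n + 1} : Multiset ℕ) = {3} + {n + 2} := raise_top l3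
  have r2 : raise ({3} + {n + 2} : Multiset ℕ) = {3} + {n + 3} := raise_top l3'
  have r3 : raise ({3} + {1} + {n + 1} : Multiset ℕ) = {3} + {1} + {n + 2} := raise_top l31
  have r4 : raise ({1} + {n + 1} : Multiset ℕ) = {1} + {n + 2} := raise_top l1
  have r5 : raise ({1} + {3} : Multiset ℕ) = {1} + {4} := raise_top l1'
  have r7 : raise ({n + 1} : Multiset ℕ) = {n + 2} := raise_single _
  have r8 : raise ({3} : Multiset ℕ) = {4} := raise_single _
  have a0 : ∀ X : BinaryTree Unit, app .nil X = X := fun _ => rfl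
  have c2 : raise ({1} : Multiset ℕ) = {2} := raise_single _
  interval_cases i
  · simp only [W, cont_app, cont_node, cn, raise_zero, cR, jc, add_zero, c2]
    abel
  · simp only [W, cont_app, cont_node, a0, cn, raise_zero, cR, jc, add_zero]
    abel
  · simp only [W, cont_app, cont_node, cn, raise_zero, cR, jc, add_zero]
    abel
  · simp only [W, cont_app, cont_node, cn, raise_zero, cR, jc, add_zero]
    rw [show ({3} + {n + 1} + {1} : Multiset ℕ) = {3} + {1} + {n + 1} by abel, r3]
  · simp only [W, cont_app, cont_node, a0, cn, raise_zero, cR, jc, add_zero, c2]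
    abel
  · simp only [W, cont_app, cont_node, cn, raise_zero, cR, jc, add_zero]
    abel
  · simp only [W, cont_app, cont_node, cn, raise_zero, cR, jc, add_zero, r1]
    abel
  · simp only [W, cont_app, cont_node, a0, cn, raise_zero, cR, jc, add_zero]
    rw [show ({1} + ({3} + {n + 1}) : Multiset ℕ) = {3} + {1} + {n + 1} by abel, r3]
  · simp only [W, cont_app, cont_node, a0, cn, raise_zero, cR, jc, add_zero, r1]
    abel
  · simp only [W, cont_app, cont_node, cn, raise_zero, cR, jc, add_zero, r1, r2]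
  · simp only [W, cont_app, cont_node, cn, raise_zero, c3, cS, jc, add_zero, c2]
    abel
  · simp only [W, cont_app, cont_node, a0, cn, raise_zero, c3, cS, jc, add_zero]
    abel
  · simp only [W, cont_app, cont_node, cn, raise_zero, c3, cS, jc, add_zero, r7]
    abel
  · simp only [W, cont_app, cont_node, cn, raise_zero, c3, cS, jc, add_zero]
    rw [show ({3} + {1} : Multiset ℕ) = {1} + {3} by abel, r5]
    abel
  · simp only [W, cont_app, cont_node, a0, cn, raise_zero, c3, cS, jc, add_zero, r4]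
    abel
  · simp only [W, cont_app, cont_node, cn, raise_zero, c3, cS, jc, add_zero, r7]
    abel
  · simp only [W, cont_app, cont_node, cn, raise_zero, c3, cS, jc, add_zero, r8]
    abel
  · simp only [W, cont_app, cont_node, a0, cn, raise_zero, c3, cS, jc, add_zero, r7]
    rw [show ({n + 2} + {3} : Multiset ℕ) = {3} + {n + 2} by abel, r2]
  · simp only [W, cont_app, cont_node, a0, cn, raise_zero, c3, cS, jc, add_zero, r8]
    abel
  · simp only [W, cont_app, cont_node, cn, raise_zero, c3, cS, jc, add_zero, r8]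
    rw [show ({n + 1} + {4} : Multiset ℕ) = {4} + {n + 1} by abel, raise_top (by
      intro x hx; rw [Multiset.mem_singleton] at hx; omega)]

/-- words with contents -/
theorem TyJs.words' (h : TyJs F g) (hk : 13 ≤ k) : ∃ n, 7 ≤ n ∧ n + 6 = k ∧
    (∀ w ∈ g.B, ∃ i < 20, comps w.1 = jl n i ∧ OddHC.cont w.1 = jc n i) := by
  obtain ⟨n, h1, h2, h3, _⟩ := h.words
  refine ⟨n, by omega, h2, fun w hw => ?_⟩
  obtain ⟨i, hi, e⟩ := h3 w hw
  refine ⟨i, hi, e, ?_⟩
  rw [← comps_W n hi] at e
  rw [comps_inj e, cont_W n (by omega) hi]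

theorem ht_jc {n i : ℕ} (hi : i < 20) : n + 1 ≤ (jc n i).sup := by
  have key : ∀ (x : ℕ), n + 1 ≤ x → x ∈ jc n i → n + 1 ≤ (jc n i).sup := fun x h1 h2 =>
    h1.trans (Multiset.le_sup h2)
  interval_cases i
  · exact key (n + 1) le_rfl (by simp [jc])
  · exact key (n + 1) le_rfl (by simp [jc])
  · exact key (n + 1) le_rfl (by simp [jc])
  · exact key (n + 2) (by omega) (by simp [jc])
  · exact key (n + 1) le_rfl (by simp [jc])
  · exact key (n + 1) le_rfl (by simp [jc])
  · exact key (n + 2) (by omega) (by simp [jc])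
  · exact key (n + 2) (by omega) (by simp [jc])
  · exact key (n + 2) (by omega) (by simp [jc])
  · exact key (n + 3) (by omega) (by simp [jc])
  · exact key (n + 1) le_rfl (by simp [jc])
  · exact key (n + 1) le_rfl (by simp [jc])
  · exact key (n + 2) (by omega) (by simp [jc])
  · exact key (n + 1) le_rfl (by simp [jc])
  · exact key (n + 2) (by omega) (by simp [jc])
  · exact key (n + 2) (by omega) (by simp [jc])
  · exact key (n + 1) le_rfl (by simp [jc])
  · exact key (n + 3) (by omega) (by simp [jc])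
  · exact key (n + 1) le_rfl (by simp [jc])
  · exact key (n + 2) (by omega) (by simp [jc])

theorem TyJs.big (h : TyJs F g) (hk : 13 ≤ k) : ∀ w ∈ g.B, 8 ≤ OddHC.ht w.1 := by
  obtain ⟨n, h1, _, h3⟩ := h.words' hk
  intro w hw
  obtain ⟨i, hi, _, e⟩ := h3 w hw
  have := ht_jc (n := n) hi
  rw [OddHC.ht_eq, e]
  omega

theorem ht_w3 (b m a : ℕ) {i : ℕ} (hi : i < 20) : OddHC.ht (w3 b m a i) ≤ 5 := by
  have h1 := ht_R3 b m a
  have h2 := ht_S3 (m := m) (a := a)
  have h3 := ht_th b
  have h0 : OddHC.ht (.nil : BinaryTree Unit) = 0 := rfl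
  have hc : OddHC.ht (ch 1) = 1 := rfl
  unfold w3
  interval_cases i <;> simp only [W, ht_app, ht_node, h0, hc, h1, h2] <;> omega

/-- **T - J1** -/
theorem js_T (h : TyT F g) (h' : TyJs F' g') (hk : 13 ≤ k) : ∀ w ∈ g.B, w ∉ g'.B := by
  intro w hw hw'
  have h1 := h'.big hk w hw'
  obtain ⟨b, m, a, i, _, hi, e⟩ := h.word hw
  have h2 := ht_w3 b m a hi
  rw [e] at h1
  omega

end J1

end Pool.OddHC
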