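import Pool.Agent.Work.MP_8f87b2_h61.JsI
import Pool.Agent.Work.MP_8f87b2_h63.J4C

/-!
MP_8f87b2_co: the MIRRORED gadget J1a at `(s, 4, 2)` (`TyJt`, helper63), `k ≥ 13`, against T, A, A0, B0 (words) and its inner
words against the types.
-/

set_option autoImplicit false

namespace Pool.OddHC

open Finset Equiv BinaryTree Pool.Agent.Work.MP_8f87b2_co

namespace J1

open H1

variable {k : ℕ} {F F' : Set (Cyc k)} {g g' : DG k}

theorem cont_RS (n : ℕ) : OddHC.cont (RS n) = {n + 1} + {4} := by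
  rw [← RS_eq, cont_app, ch_cont, ch_cont]

/-- contents of the twenty words over `[n+1][4]` -/
def jtc (n : ℕ) : ℕ → Multiset ℕ
  | 0 => {4} + {2} + {n + 1}
  | 1 => {4} + {1} + {1} + {n + 1}
  | 2 => {4} + {1} + {1} + {n + 1}
  | 3 => {4} + {1} + {n + 2}
  | 4 => {4} + {2} + {n + 1}
  | 5 => {4} + {1} + {1} + {n + 1}
  | 6 => {4} + {1} + {n + 2}
  | 7 => {4} + {1} + {n + 2}
  | 8 => {4} + {1} + {n + 2}
  | 9 => {4} + {n + 3}
  | 10 => {4} + {2} + {n + 1}
  | 11 => {4} + {1} + {1} + {n + 1}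
  | 12 => {4} + {1} + {n + 2}
  | 13 => {5} + {1} + {n + 1}
  | 14 => {4} + {1} + {n + 2}
  | 15 => {4} + {1} + {n + 2}
  | 16 => {5} + {1} + {n + 1}
  | 17 => {4} + {n + 3}
  | 18 => {5} + {1} + {n + 1}
  | _ => {5} + {n + 2}

theorem cont_Wt (n : ℕ) (hn : 5 ≤ n) {i : ℕ} (hi : i < 20) :
    OddHC.cont (W (RS n) .nil (ch 4) (ch (n + 1)) i) = jtc n i := by
  have cR : OddHC.cont (RS n) = {4} + {n + 1} := by rw [cont_RS, add_comm]
  have cS : OddHC.cont (ch (n + 1)) = {n + 1} := ch_cont n
  have c3 : OddHC.cont (ch 4) = {4} := ch_cont 3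
  have c0 : raise (OddHC.cont (.nil : BinaryTree Unit)) = {1} := by rw [cont_nil, raise_zero]
  have cn : OddHC.cont (.nil : BinaryTree Unit) = 0 := cont_nil
  have l3 : ∀ x ∈ ({4} : Multiset ℕ), x < n + 1 := by
    intro x hx; rw [Multiset.mem_singleton] at hx; omega
  have l3' : ∀ x ∈ ({4} : Multiset ℕ), x < n + 2 := by
    intro x hx; rw [Multiset.mem_singleton] at hx; omega
  have l31 : ∀ x ∈ ({4} + {1} : Multiset ℕ), x < n + 1 := by
    intro x hx; rw [Multiset.mem_add, Multiset.mem_singleton, Multiset.mem_singleton] at hx; omega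
  have l1 : ∀ x ∈ ({1} : Multiset ℕ), x < n + 1 := by
    intro x hx; rw [Multiset.mem_singleton] at hx; omega
  have l1' : ∀ x ∈ ({1} : Multiset ℕ), x < 4 := by
    intro x hx; rw [Multiset.mem_singleton] at hx; omega
  have l4 : ∀ x ∈ ({5} : Multiset ℕ), x < n + 1 := by
    intro x hx; rw [Multiset.mem_singleton] at hx; omega
  have r1 : raise ({4} + {n + 1} : Multiset ℕ) = {4} + {n + 2} := raise_top l3
  have r2 : raise ({4} + {n + 2} : Multiset ℕ) = {4} + {n + 3} := raise_top l3'
  have r3 : raise ({4} + {1} + {n + 1} : Multiset ℕ) = {4} + {1} + {n + 2} := raise_top l31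
  have r4 : raise ({1} + {n + 1} : Multiset ℕ) = {1} + {n + 2} := raise_top l1
  have r5 : raise ({1} + {4} : Multiset ℕ) = {1} + {5} := raise_top l1'
  have r7 : raise ({n + 1} : Multiset ℕ) = {n + 2} := raise_single _
  have r8 : raise ({4} : Multiset ℕ) = {5} := raise_single _
  have a0 : ∀ X : BinaryTree Unit, app .nil X = X := fun _ => rfl
  have c2 : raise ({1} : Multiset ℕ) = {2} := raise_single _
  interval_cases i
  · simp only [W, cont_app, cont_node, cn, raise_zero, cR, jtc, add_zero, c2]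
    abel
  · simp only [W, cont_app, cont_node, a0, cn, raise_zero, cR, jtc, add_zero]
    abel
  · simp only [W, cont_app, cont_node, cn, raise_zero, cR, jtc, add_zero]
    abel
  · simp only [W, cont_app, cont_node, cn, raise_zero, cR, jtc, add_zero]
    rw [show ({4} + {n + 1} + {1} : Multiset ℕ) = {4} + {1} + {n + 1} by abel, r3]
  · simp only [W, cont_app, cont_node, a0, cn, raise_zero, cR, jtc, add_zero, c2]
    abel
  · simp only [W, cont_app, cont_node, cn, raise_zero, cR, jtc, add_zero]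
    abel
  · simp only [W, cont_app, cont_node, cn, raise_zero, cR, jtc, add_zero, r1]
    abel
  · simp only [W, cont_app, cont_node, a0, cn, raise_zero, cR, jtc, add_zero]
    rw [show ({1} + ({4} + {n + 1}) : Multiset ℕ) = {4} + {1} + {n + 1} by abel, r3]
  · simp only [W, cont_app, cont_node, a0, cn, raise_zero, cR, jtc, add_zero, r1]
    abel
  · simp only [W, cont_app, cont_node, cn, raise_zero, cR, jtc, add_zero, r1, r2]
  · simp only [W, cont_app, cont_node, cn, raise_zero, c3, cS, jtc, add_zero, c2]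
    abel
  · simp only [W, cont_app, cont_node, a0, cn, raise_zero, c3, cS, jtc, add_zero]
    abel
  · simp only [W, cont_app, cont_node, cn, raise_zero, c3, cS, jtc, add_zero, r7]
    abel
  · simp only [W, cont_app, cont_node, cn, raise_zero, c3, cS, jtc, add_zero]
    rw [show ({4} + {1} : Multiset ℕ) = {1} + {4} by abel, r5]
    abel
  · simp only [W, cont_app, cont_node, a0, cn, raise_zero, c3, cS, jtc, add_zero, r4]
    abel
  · simp only [W, cont_app, cont_node, cn, raise_zero, c3, cS, jtc, add_zero, r7]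
    abel
  · simp only [W, cont_app, cont_node, cn, raise_zero, c3, cS, jtc, add_zero, r8]
    abel
  · simp only [W, cont_app, cont_node, a0, cn, raise_zero, c3, cS, jtc, add_zero, r7]
    rw [show ({n + 2} + {4} : Multiset ℕ) = {4} + {n + 2} by abel, r2]
  · simp only [W, cont_app, cont_node, a0, cn, raise_zero, c3, cS, jtc, add_zero, r8]
    abel
  · simp only [W, cont_app, cont_node, cn, raise_zero, c3, cS, jtc, add_zero, r8]
    rw [show ({n + 1} + {5} : Multiset ℕ) = {5} + {n + 1} by abel, raise_top (by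
      intro x hx; rw [Multiset.mem_singleton] at hx; omega)]

/-- words with contents -/
theorem TyJt.words' (h : TyJt F g) (hk : 13 ≤ k) : ∃ n, 6 ≤ n ∧ n + 7 = k ∧
    (∀ w ∈ g.B, ∃ i < 20, comps (Tsq.mir w.1) = jt n i ∧ OddHC.cont w.1 = jtc n i) := by
  obtain ⟨n, h1, h2, h3, _⟩ := h.words
  refine ⟨n, by omega, h2, fun w hw => ?_⟩
  obtain ⟨i, hi, e⟩ := h3 w hw
  refine ⟨i, hi, e, ?_⟩
  rw [← comps_Wt n hi] at e
  rw [← HM.cont_mir, comps_inj e, cont_Wt n (by omega) hi]

theorem ht_jtc {n i : ℕ} (hi : i < 20) : n + 1 ≤ (jtc n i).sup := by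
  have key : ∀ (x : ℕ), n + 1 ≤ x → x ∈ jtc n i → n + 1 ≤ (jtc n i).sup := fun x h1 h2 =>
    h1.trans (Multiset.le_sup h2)
  interval_cases i
  · exact key (n + 1) le_rfl (by simp [jtc])
  · exact key (n + 1) le_rfl (by simp [jtc])
  · exact key (n + 1) le_rfl (by simp [jtc])
  · exact key (n + 2) (by omega) (by simp [jtc])
  · exact key (n + 1) le_rfl (by simp [jtc])
  · exact key (n + 1) le_rfl (by simp [jtc])
  · exact key (n + 2) (by omega) (by simp [jtc])
  · exact key (n + 2) (by omega) (by simp [jtc])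
  · exact key (n + 2) (by omega) (by simp [jtc])
  · exact key (n + 3) (by omega) (by simp [jtc])
  · exact key (n + 1) le_rfl (by simp [jtc])
  · exact key (n + 1) le_rfl (by simp [jtc])
  · exact key (n + 2) (by omega) (by simp [jtc])
  · exact key (n + 1) le_rfl (by simp [jtc])
  · exact key (n + 2) (by omega) (by simp [jtc])
  · exact key (n + 2) (by omega) (by simp [jtc])
  · exact key (n + 1) le_rfl (by simp [jtc])
  · exact key (n + 3) (by omega) (by simp [jtc])
  · exact key (n + 1) le_rfl (by simp [jtc])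
  · exact key (n + 2) (by omega) (by simp [jtc])

theorem TyJt.big7 (h : TyJt F g) (hk : 13 ≤ k) : ∀ w ∈ g.B, 7 ≤ OddHC.ht w.1 := by
  obtain ⟨n, h1, _, h3⟩ := h.words' hk
  intro w hw
  obtain ⟨i, hi, _, e⟩ := h3 w hw
  have := ht_jtc (n := n) hi
  rw [OddHC.ht_eq, e]
  omega

/-- **T - J1M** -/
theorem jt_T (h : TyT F g) (h' : TyJt F' g') (hk : 13 ≤ k) : ∀ w ∈ g.B, w ∉ g'.B := by
  intro w hw hw'
  have h1 := h'.big7 hk w hw'
  obtain ⟨b, m, a, i, _, hi, e⟩ := h.word hw
  have h2 := ht_w3 b m a hi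
  rw [e] at h1
  omega

end J1

end Pool.OddHC
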