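import Pool.Agent.Work.MP_8f87b2_h61.JsA
import Pool.Agent.Work.MP_8f87b2_h84.Inn2
import Pool.Agent.Work.MP_8f87b2_mid.InAE
import Pool.Agent.Work.MP_8f87b2_h60.TyB0

/-!
MP_8f87b2_co: the inner words of the gadget J1a at `[s][c]`: `T (w i) = [..[ [c] Z_i ]..]` (`s - c` times), `i = 1, 3, 6, 8, 9`.
So they are twice prime, `((V))`; such a word is not a word of L, K, K', C, C', T, A, A0, nor of an E gadget if its
content has a part 2 or 3.
-/

set_option autoImplicit false

namespace Pool.OddHC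

open Finset Equiv BinaryTree Pool.Agent.Work.MP_8f87b2_co

namespace J1

open H1

variable {k : ℕ} {F F' : Set (Cyc k)} {g g' : DG k}

/-- `((..X..))` -/
def nst : ℕ → BinaryTree Unit → BinaryTree Unit
  | 0, X => X
  | n + 1, X => nst n X △ .nil

theorem wd_nst (m : ℕ) (X : BinaryTree Unit) :
    wd (nst m X) = List.replicate m true ++ (wd X ++ List.replicate m false) := by
  induction m with
  | zero => simp [nst]
  | succ m ih =>
    rw [nst, wd_node, ih, wd_nil, List.replicate_succ, List.replicate_succ']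
    simp

/-- twice prime: `((V))` -/
def DP (w : BinaryTree Unit) : Prop := ∃ V, w = (V △ .nil) △ .nil

theorem DP.mir {w : BinaryTree Unit} (h : DP w) : DP (Tsq.mir w) := by
  obtain ⟨V, rfl⟩ := h
  exact ⟨Tsq.mir V, by simp [Tsq.mir_node, app, Tsq.mir]⟩

theorem dp_nst {m : ℕ} (hm : 2 ≤ m) (X : BinaryTree Unit) : DP (nst m X) := by
  obtain ⟨m, rfl⟩ : ∃ d, m = d + 2 := ⟨m - 2, by omega⟩
  exact ⟨nst m X, rfl⟩

/-- the tails -/
def zz (c : ℕ) : ℕ → BinaryTree Unit
  | 1 => nst c (.nil △ (.nil △ (.nil △ .nil)))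
  | 3 => nst c (.nil △ ch 2)
  | 6 => nst (c + 1) (.nil △ (.nil △ .nil))
  | 8 => nst c (ch 1 △ ch 1)
  | _ => ch (c + 3)

/-- **the inner words** -/
theorem j1_TT {c d : ℕ} {x : X k} {i : ℕ} (hi : i ∈ [1, 3, 6, 8, 9]) (hx : x.1 = J.j1w (c + 1 + d) (c + 1) i) :
    (TT x).1 = nst d (app (ch (c + 1)) (zz c i)) := by
  have h0 := J.FM_ch (c + d)
  have hn : Tsq.ht (.nil : BinaryTree Unit) = 0 := rfl
  have hS : Tsq.ht (H1.ch (c + 1 + d)) = c + 1 + d := by rw [H1.ht_eq, H1.ch_ht]
  have hC : Tsq.ht (H1.ch (c + 1)) = c + 1 := by rw [H1.ht_eq, H1.ch_ht]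
  rw [show c + d + 1 = c + 1 + d by omega] at h0
  have hR := h0.app_right (Z := H1.ch (c + 1)) (by rw [hS, hC]; omega)
  have hRh : Tsq.ht (app (H1.ch (c + 1 + d)) (H1.ch (c + 1))) = c + 1 + d := by rw [Tsq.ht_app, hS, hC]; omega
  have fin : ∀ {y : BinaryTree Unit} {a b : List Bool}, x.1 = y → H1.FM y a b →
      b.map not ++ false :: a.map not = wd (nst d (app (ch (c + 1)) (zz c i))) →
      (TT x).1 = nst d (app (ch (c + 1)) (zz c i)) := by
    intro y a b e h e2
    rw [← e] at h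
    apply sl_inj
    unfold sl
    rw [h.wdT, e2]
  have r1 : ∀ b : Bool, List.replicate (c + d) b = List.replicate c b ++ List.replicate d b := by
    intro b
    rw [List.replicate_add]
  have r3 : List.replicate (c + 1) true = List.replicate c true ++ [true] := List.replicate_succ'
  have r3f : List.replicate (c + 1) false = false :: List.replicate c false := List.replicate_succ
  have r2 : List.replicate (c + 1 + d) true = List.replicate d true ++ (List.replicate c true ++ [true]) := by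
    rw [show c + 1 + d = d + (c + 1) by omega, List.replicate_add, r3]
  have r4 : List.replicate (c + 3) true = List.replicate c true ++ [true, true, true] := by
    rw [List.replicate_add]; rfl
  have r4f : List.replicate (c + 3) false = [false, false, false] ++ List.replicate c false := by
    rw [show c + 3 = 3 + c by omega, List.replicate_add]; rfl
  simp only [List.mem_cons, List.not_mem_nil, or_false] at hi
  rcases hi with rfl | rfl | rfl | rfl | rfl
  · have h := hR.app_right (Z := .nil △ (.nil △ .nil)) (by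
      rw [hRh, Tsq.ht_node, Tsq.ht_node, hn]; omega)
    refine fin hx h ?_
    simp only [wd_nst, wd_app, zz, wd_ch, wd_node, wd_nil, List.map_append, List.map_replicate,
      Bool.not_true, Bool.not_false, List.map_cons, List.map_nil]
    simp only [r1, r2, r3, r3f]
    simp
  · have h := (hR.app_right (Z := .nil △ .nil) (by
      rw [hRh, Tsq.ht_node, hn]; omega)).node (Z := .nil) (by rw [hn]; omega)
    refine fin hx h ?_
    have w2 : wd (ch 2) = [true, true, false, false] := rfl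
    simp only [wd_nst, wd_app, zz, w2, wd_ch, wd_node, wd_nil, List.map_append, List.map_replicate,
      Bool.not_true, Bool.not_false, List.map_cons, List.map_nil]
    simp only [r1, r2, r3, r3f]
    simp
  · have h := hR.node (Z := .nil △ .nil) (by rw [hRh, Tsq.ht_node, hn]; omega)
    refine fin hx h ?_
    simp only [wd_nst, wd_app, zz, wd_ch, wd_node, wd_nil, List.map_append, List.map_replicate,
      Bool.not_true, Bool.not_false, List.map_cons, List.map_nil]
    simp only [r1, r2, r3, r3f]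
    simp
  · have h := (hR.node (Z := .nil) (by rw [hn]; omega)).app_left (P := .nil △ .nil) (by
      rw [Tsq.ht_node, Tsq.ht_node, hn, hRh]; omega)
    refine fin hx h ?_
    have w1 : wd (ch 1) = [true, false] := rfl
    simp only [wd_nst, wd_app, zz, w1, wd_ch, wd_node, wd_nil, List.map_append, List.map_replicate,
      Bool.not_true, Bool.not_false, List.map_cons, List.map_nil]
    simp only [r1, r2, r3, r3f]
    simp
  · have h := (hR.node (Z := .nil) (by rw [hn]; omega)).node (Z := .nil) (by rw [hn]; omega)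
    refine fin hx h ?_
    simp only [wd_nst, wd_app, zz, wd_ch, wd_node, wd_nil, List.map_append, List.map_replicate,
      Bool.not_true, Bool.not_false, List.map_cons, List.map_nil]
    simp only [r1, r2, r3, r3f, r4, r4f]
    simp

/-! ### Twice prime words against the types -/

theorem dp_w1 {P Q R : BinaryTree Unit} (h : DP (w1 P Q R)) : P = .nil ∧ R = .nil ∧ ∃ V, Q = V △ .nil := by
  obtain ⟨V, h⟩ := h
  have h1 := congrArg comps h
  rw [comps_w1] at h1
  change comps P ++ Q :: comps R = [V △ .nil] at h1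
  rcases hc : comps P with _ | ⟨r1, l⟩
  · rw [hc, List.nil_append, List.cons.injEq] at h1
    exact ⟨comps_inj hc, comps_inj h1.2, V, h1.1⟩
  · rw [hc] at h1
    simp at h1

theorem dp_big {V : BinaryTree Unit} {w : BinaryTree Unit} (h5 : 5 ≤ OddHC.ht w) (h : w = (V △ .nil) △ .nil) :
    3 ≤ OddHC.ht V := by
  rw [h, ht_node, ht_node] at h5
  have : OddHC.ht (.nil : BinaryTree Unit) = 0 := rfl
  omega

/-- **L** -/
theorem dp_L (h : TyL F g) {w : X k} (hw : DP w.1) : w ∉ g.B := by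
  obtain ⟨R', e, _, _, _, _, h⟩ := h
  have n1 : lp 1 ≠ .nil := by change (.nil △ .nil : BinaryTree Unit) ≠ .nil; simp
  intro hB
  rcases h.words w hB with e | ⟨_, e | e⟩
  · rw [e] at hw
    exact n1 (dp_w1 hw).1
  · rw [e] at hw
    exact n1 (dp_w1 hw).2.1
  · rw [e] at hw
    exact n1 (dp_w1 hw).1

/-- **K** -/
theorem dp_K {S : BinaryTree Unit} (h : TyK S F g) {w : X k} (hw : DP w.1) (h5 : 5 ≤ OddHC.ht w.1) : w ∉ g.B := by
  intro hB
  rcases IsTri.words h w hB with e | ⟨_, e | e⟩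
  · rw [e] at hw
    exact absurd (dp_w1 hw).2.1 (by simp)
  · rw [e] at hw
    have h1 := (dp_w1 hw).1
    rw [e, h1] at h5
    exact absurd h5 (by decide)
  · rw [e] at hw
    exact absurd (dp_w1 hw).1 (by simp)

/-- **K'** -/
theorem dp_K' {S : BinaryTree Unit} (h : TyK' S F g) {w : X k} (hw : DP w.1) (h5 : 5 ≤ OddHC.ht w.1) :
    w ∉ g.B := by
  intro hB
  rcases IsTri.words h w hB with e | ⟨_, e | e⟩
  · rw [e] at hw
    exact absurd (dp_w1 hw).1 (by simp)
  · rw [e] at hw
    exact absurd (dp_w1 hw).2.1 (by simp)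
  · rw [e] at hw
    have h1 := (dp_w1 hw).2.1
    rw [e, h1] at h5
    exact absurd h5 (by decide)

/-- **C** -/
theorem dp_C {c : ℕ} {R : BinaryTree Unit} (h : TyC c R F g) {w : X k} (hw : DP w.1) (hc : 1 ≤ c)
    (h2 : 2 ≤ (OddHC.cont w.1).card) : w ∉ g.B := by
  have n1 : ch c ≠ .nil := by rw [Ne, ch_eq_nil]; omega
  intro hB
  rcases IsTri.words h w hB with e | ⟨_, e | e⟩
  · rw [e] at hw
    exact n1 (dp_w1 hw).2.1
  · rw [e] at hw
    have h1 := (dp_w1 hw).1
    rw [e, h1] at h2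
    change 2 ≤ (OddHC.cont (ch (c + 1))).card at h2
    rw [ch_cont, Multiset.card_singleton] at h2
    omega
  · rw [e] at hw
    exact n1 (dp_w1 hw).1

/-- **C'** -/
theorem dp_C' {c : ℕ} {R : BinaryTree Unit} (h : TyC' c R F g) {w : X k} (hw : DP w.1) (hc : 1 ≤ c)
    (h2 : 2 ≤ (OddHC.cont w.1).card) : w ∉ g.B := by
  have n1 : ch c ≠ .nil := by rw [Ne, ch_eq_nil]; omega
  intro hB
  rcases IsTri.words h w hB with e | ⟨_, e | e⟩
  · rw [e] at hw
    exact n1 (dp_w1 hw).1
  · rw [e] at hw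
    exact n1 (dp_w1 hw).2.1
  · rw [e] at hw
    have h1 := (dp_w1 hw).2.1
    rw [e, h1] at h2
    change 2 ≤ (OddHC.cont (ch (c + 1))).card at h2
    rw [ch_cont, Multiset.card_singleton] at h2
    omega

/-- **E** -/
theorem dp_E (h : TyE F g) {w : X k} (hw : DP w.1) (h5 : 5 ≤ OddHC.ht w.1)
    (h23 : 2 ∈ OddHC.cont w.1 ∨ 3 ∈ OddHC.cont w.1) : w ∉ g.B := by
  obtain ⟨j, r, f, hj, hL, h⟩ := h
  have he : (lf f).length = 2 * r.1.numNodes + 1 := by rw [lf_length, X_num]
  obtain ⟨l1, l2⟩ := low_fh he hL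
  generalize hX : ins r.1 (lf f) = Y at h l1 l2
  intro hB
  rcases h.words w hB with e | ⟨_, e | e⟩
  · obtain ⟨V, hV⟩ := hw
    have hV3 := dp_big h5 hV
    rw [e] at hV
    have hY : Y = V △ .nil := (node_inj hV).1
    have hV0 : V ≠ .nil := by rintro rfl; exact absurd hV3 (by decide)
    have hf : fh Y = OddHC.ht V := by rw [hY, fh_node hV0]
    have hcw : OddHC.cont w.1 = raise (OddHC.cont Y) := by
      rw [e]
      change OddHC.cont (Y △ .nil) = _
      rw [cont_node, cont_nil, add_zero]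
    have hs : 4 ≤ (OddHC.cont Y).sup := by
      rw [← OddHC.ht_eq, hY, ht_node]
      have : OddHC.ht (.nil : BinaryTree Unit) = 0 := rfl
      omega
    have cc : ∀ b, b ≤ 3 → (OddHC.cont w.1).count b = (OddHC.cont Y).count b := by
      intro b hb
      rw [hcw]
      exact count_raise b (by omega) (by omega)
    rcases Nat.eq_zero_or_pos ((OddHC.cont Y).count 2) with h0 | h0
    · have h3 : 1 ≤ (OddHC.cont Y).count 3 := by
        rcases h23 with g2 | g3
        · have := Multiset.count_pos.2 g2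
          rw [cc 2 (by norm_num)] at this
          omega
        · have := Multiset.count_pos.2 g3
          rw [cc 3 (by norm_num)] at this
          omega
      have := l2 h0 h3
      omega
    · have := l1 h0
      omega
  · rw [e] at hw
    obtain ⟨_, h2⟩ := (dp_w1 hw).2.2
    exact absurd h2 (by simp)
  · rw [e] at hw
    obtain ⟨_, h2⟩ := (dp_w1 hw).2.2
    exact absurd h2 (by simp)

/-- **T** -/
theorem dp_T (h : TyT F g) {w : X k} (h6 : 6 ≤ OddHC.ht w.1) : w ∉ g.B := by
  intro hB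
  obtain ⟨b, m, a, i, _, hi, e⟩ := h.word hB
  have h2 := ht_w3 b m a hi
  rw [e] at h6
  omega

theorem dp_len {w : BinaryTree Unit} (h : DP w) : (comps w).length = 1 ∧ ∃ A, comps w = [A] ∧ (comps A).length = 1 := by
  obtain ⟨V, rfl⟩ := h
  exact ⟨rfl, _, rfl, rfl⟩

/-- words of the windows are not twice prime -/
theorem dp_W {q : ℕ} {R B S : BinaryTree Unit} (hR : R ≠ .nil) (hS : S ≠ .nil) {i : ℕ} (hi : i < 20) :
    ¬ DP (W R (ch (q + 1)) B S i) := by
  have sR := List.length_pos_iff.2 (comps_ne hR)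
  have sS := List.length_pos_iff.2 (comps_ne hS)
  have cQ : comps (ch (q + 1)) = [ch q] := rfl
  intro h
  obtain ⟨hl, A, hA, hl2⟩ := dp_len h
  interval_cases i
  all_goals simp only [W, comps_app, comps_node, cQ, List.length_append, List.length_cons, List.length_nil, comps] at hl
  all_goals try (exfalso; omega)
  · -- 3
    simp only [W, comps_node, comps, List.cons.injEq, and_true] at hA
    rw [← hA, comps_app, comps_node, cQ, List.length_append, List.length_cons, List.length_cons] at hl2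
    omega
  · -- 14
    simp only [W, comps_node, List.cons.injEq] at hA
    rw [← hA.1, comps_app, comps_node, cQ, List.length_append, List.length_cons, List.length_cons] at hl2
    omega

theorem dp_aw {q : ℕ} {R B S : BinaryTree Unit} (hR : R ≠ .nil) (hS : S ≠ .nil) {i : ℕ} (hi : i < 20) :
    ¬ DP (aw R (ch (q + 1)) B S i) := by
  have sR := List.length_pos_iff.2 (comps_ne hR)
  have sS := List.length_pos_iff.2 (comps_ne hS)
  have cQ : comps (ch (q + 1)) = [ch q] := rfl
  intro h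
  obtain ⟨hl, A, hA, hl2⟩ := dp_len h
  interval_cases i
  all_goals simp only [aw, comps_app, comps_node, cQ, List.length_append, List.length_cons, List.length_nil, comps] at hl
  all_goals try (exfalso; omega)
  · -- 3
    simp only [aw, comps_node, comps, List.cons.injEq, and_true] at hA
    rw [← hA, comps_app, comps_node, cQ, List.length_append, List.length_cons, List.length_cons] at hl2
    omega
  · -- 14
    have hB : comps B = [] := by
      apply List.length_eq_zero_iff.1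
      omega
    simp only [aw, comps_app, comps_node, hB, List.nil_append, List.cons.injEq] at hA
    rw [← hA.1, comps_app, comps_node, cQ, List.length_append, List.length_cons, List.length_cons] at hl2
    omega

/-- **A** -/
theorem dp_A (h : TyA F g) {w : X k} (hw : DP w.1) : w ∉ g.B := by
  intro hB
  obtain ⟨q, B1, H, s, B, w0, h1, rfl, rfl⟩ := h
  obtain ⟨i, hi, rfl⟩ := mem_gad20.1 hB
  have hA := h1.adm
  have aR := hA.amR
  have aS := hA.amS
  rw [h1.word w0 hi] at hw
  refine dp_W ?_ ?_ hi hw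
  · intro e; rw [e] at aR; exact absurd aR (by simp [am])
  · intro e; rw [e] at aS; exact absurd aS (by simp [am])

/-- **A0** (every word of a mirrored bare window) -/
theorem dp_M {q : ℕ} {R B S : BinaryTree Unit} (h : HM.NodeM k q R B S) (w0 : X k) {i : ℕ} (hi : i < 20) :
    ¬ DP (HM.mX R B S q w0 i).1 := by
  rw [h.word' w0 hi, ← ch_eq]
  exact dp_aw h.a0d.R_ne h.a0d.S_ne hi

theorem dp_A0 (h : TyA0 F g) {w : X k} (hw : DP w.1) : w ∉ g.B := by
  intro hB
  obtain ⟨q, R, B, S, w0, h1, _, rfl, rfl⟩ := h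
  obtain ⟨i, hi, rfl⟩ := mem_gad20M.1 hB
  exact dp_M h1 w0 hi hw

/-- **B0** -/
theorem dp_B0 (h : TyB0 F g) {w : X k} (hw : DP w.1) : w ∉ g.B := by
  intro hB
  obtain ⟨q, R, B, S, w0, h1, _, _, _, rfl, rfl⟩ := h
  obtain ⟨i, hi, _, rfl⟩ := mem_gadSM.1 hB
  exact dp_M h1 w0 hi hw

/-! ### The inner words of `TyJs` -/

theorem TyJs.inn (h : TyJs F g) (hk : 13 ≤ k) : ∀ p ∈ g.arcs, ∀ w ∈ innA p,
    DP w.1 ∧ 8 ≤ OddHC.ht w.1 ∧ 3 ∈ OddHC.cont w.1 ∧ 2 ≤ (OddHC.cont w.1).card := by
  obtain ⟨n, w0, h1, h2, h3, rfl, rfl⟩ := h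
  obtain ⟨_, hA⟩ := J1_data (s := n + 1) (c := 3) h2 w0 rfl rfl rfl
  have hn : 7 ≤ n := by
    have := h2.num
    change (app (ch (n + 1)) (ch 3)).numNodes + 2 = k at this
    rw [num_app, ch_num, ch_num] at this
    omega
  intro p hp w hw
  obtain ⟨i, hi, hx⟩ := hA p hp
  have e : w = TT p.1 := hw
  have hi20 : i < 20 := by
    simp only [List.mem_cons, List.not_mem_nil, or_false] at hi
    omega
  have hc : OddHC.cont w.1 = jc n i := by
    rw [e, cont_TT, hx]
    exact cont_W n (by omega) hi20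
  obtain ⟨d, rfl⟩ : ∃ d, n = d + 2 := ⟨n - 2, by omega⟩
  have hT := j1_TT (c := 2) (d := d) hi (by rw [hx]; congr 1; omega)
  refine ⟨?_, ?_, ?_, ?_⟩
  · rw [e, hT]
    exact dp_nst (by omega) _
  · rw [OddHC.ht_eq, hc]
    have := ht_jc (n := d + 2) hi20
    omega
  · rw [hc]
    simp only [List.mem_cons, List.not_mem_nil, or_false] at hi
    rcases hi with rfl | rfl | rfl | rfl | rfl <;> simp [jc]
  · rw [hc]
    simp only [List.mem_cons, List.not_mem_nil, or_false] at hi
    rcases hi with rfl | rfl | rfl | rfl | rfl <;> simp [jc]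

/-- **I-J1-E** -/
theorem TyJs.inner_E (h : TyJs F g) (hk : 13 ≤ k) (h' : TyE F' g') : ∀ p ∈ g.arcs, ∀ w ∈ innA p, w ∉ g'.B := by
  intro p hp w hw
  obtain ⟨a, b, c, d⟩ := h.inn hk p hp w hw
  exact dp_E h' a (by omega) (Or.inr c)

/-- **I-J1-L** -/
theorem TyJs.inner_L (h : TyJs F g) (hk : 13 ≤ k) (h' : TyL F' g') : ∀ p ∈ g.arcs, ∀ w ∈ innA p, w ∉ g'.B :=
  fun p hp w hw => dp_L h' (h.inn hk p hp w hw).1

/-- **I-J1-K** -/
theorem TyJs.inner_K {S : BinaryTree Unit} (h : TyJs F g) (hk : 13 ≤ k) (h' : TyK S F' g') :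
    ∀ p ∈ g.arcs, ∀ w ∈ innA p, w ∉ g'.B := by
  intro p hp w hw
  obtain ⟨a, b, c, d⟩ := h.inn hk p hp w hw
  exact dp_K h' a (by omega)

/-- **I-J1-K'** -/
theorem TyJs.inner_K' {S : BinaryTree Unit} (h : TyJs F g) (hk : 13 ≤ k) (h' : TyK' S F' g') :
    ∀ p ∈ g.arcs, ∀ w ∈ innA p, w ∉ g'.B := by
  intro p hp w hw
  obtain ⟨a, b, c, d⟩ := h.inn hk p hp w hw
  exact dp_K' h' a (by omega)

/-- **I-J1-Cr** -/
theorem TyJs.inner_C {c : ℕ} {R : BinaryTree Unit} (h : TyJs F g) (hk : 13 ≤ k) (h' : TyC c R F' g') (hc : 1 ≤ c) :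
    ∀ p ∈ g.arcs, ∀ w ∈ innA p, w ∉ g'.B := by
  intro p hp w hw
  obtain ⟨a, b, _, d⟩ := h.inn hk p hp w hw
  exact dp_C h' a hc d

/-- **I-J1-Cl** -/
theorem TyJs.inner_C' {c : ℕ} {R : BinaryTree Unit} (h : TyJs F g) (hk : 13 ≤ k) (h' : TyC' c R F' g') (hc : 1 ≤ c) :
    ∀ p ∈ g.arcs, ∀ w ∈ innA p, w ∉ g'.B := by
  intro p hp w hw
  obtain ⟨a, b, _, d⟩ := h.inn hk p hp w hw
  exact dp_C' h' a hc d

/-- **I-J1-T** -/
theorem TyJs.inner_T (h : TyJs F g) (hk : 13 ≤ k) (h' : TyT F' g') : ∀ p ∈ g.arcs, ∀ w ∈ innA p, w ∉ g'.B := by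
  intro p hp w hw
  obtain ⟨a, b, c, d⟩ := h.inn hk p hp w hw
  exact dp_T h' (by omega)

/-- **I-J1-A** -/
theorem TyJs.inner_A (h : TyJs F g) (hk : 13 ≤ k) (h' : TyA F' g') : ∀ p ∈ g.arcs, ∀ w ∈ innA p, w ∉ g'.B :=
  fun p hp w hw => dp_A h' (h.inn hk p hp w hw).1

/-- **I-J1-A0** -/
theorem TyJs.inner_A0 (h : TyJs F g) (hk : 13 ≤ k) (h' : TyA0 F' g') : ∀ p ∈ g.arcs, ∀ w ∈ innA p, w ∉ g'.B :=
  fun p hp w hw => dp_A0 h' (h.inn hk p hp w hw).1

/-- **I-J1-B0** -/
theorem TyJs.inner_B0 (h : TyJs F g) (hk : 13 ≤ k) (h' : TyB0 F' g') : ∀ p ∈ g.arcs, ∀ w ∈ innA p, w ∉ g'.B :=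
  fun p hp w hw => dp_B0 h' (h.inn hk p hp w hw).1

end J1

end Pool.OddHC
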