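import Pool.Agent.Work.MP_8f87b2_h61.JsA0

/-!
MP_8f87b2_co: the gadget J1a at `(s, 3, 2)`, `k ≥ 13`, against the windows A (words): the only common word is
`(()[s])[3]`, word 0 of the window of the node `(s+1, 3, 1)`.
-/

set_option autoImplicit false

namespace Pool.OddHC

open Finset Equiv BinaryTree Pool.Agent.Work.MP_8f87b2_co

namespace J1

open H1

variable {k : ℕ} {F F' : Set (Cyc k)} {g g' : DG k}

theorem nil2 : (.nil △ .nil : BinaryTree Unit) = ch 1 := rfl

/-- the words of `TyJs` are unmarked, except 7 and 14 -/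
theorem am_js {n : ℕ} (hn : 2 ≤ n) {i : ℕ} (hi : i < 20) (h7 : i ≠ 7) (h14 : i ≠ 14) :
    am (W (RR n) .nil (ch 3) (ch (n + 1)) i) = false := by
  have a0 : ∀ X : BinaryTree Unit, app .nil X = X := fun _ => rfl
  have nn : ch n ≠ .nil := by rw [Ne, ch_eq_nil]; omega
  have aR : am (RR n) = false := by
    unfold RR
    rw [am_node, mk_ch, am_ch]
    rfl
  have lt : light (ch n) = false := by
    obtain ⟨m, rfl⟩ : ∃ m, n = m + 2 := ⟨n - 2, by omega⟩
    rfl
  have lt1 : light (ch (n + 1)) = false := by
    obtain ⟨m, rfl⟩ : ∃ m, n = m + 2 := ⟨n - 2, by omega⟩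
    rfl
  have lt2 : light (RR n) = false := by
    change (isNil (ch n) && isNil (ch 3)) = false
    rw [isNil_f.2 nn]
    rfl
  have pb : ∀ X, PB (ch n △ X) = false := by
    intro X
    change (light (ch n) && _) = false
    rw [lt]; rfl
  have pb1 : ∀ X, PB (ch (n + 1) △ X) = false := by
    intro X
    change (light (ch (n + 1)) && _) = false
    rw [lt1]; rfl
  have pb2 : ∀ X, PB (RR n △ X) = false := by
    intro X
    change (light (RR n) && _) = false
    rw [lt2]; rfl
  have mR : mk (RR n) = false := by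
    rw [H1.mk, aR]
    unfold RR
    rw [pb]; rfl
  have nr : RR n = ch n △ ch 3 := rfl
  have e3 : ch 3 = ch 2 △ .nil := rfl
  have c1 : am (.nil : BinaryTree Unit) = false := rfl
  have c2 : mk (.nil : BinaryTree Unit) = false := rfl
  have k1 : mk (ch n △ (ch 2 △ (.nil △ .nil))) = false := by
    rw [H1.mk, pb, am_node, mk_ch, am_node, mk_ch]; rfl
  have k2 : mk (RR n △ .nil) = false := by
    rw [H1.mk, pb2, am_node, mR]; rfl
  have k3 : mk (ch 2 △ (.nil △ .nil)) = false := rfl
  have k4 : mk (ch (n + 1) △ .nil) = false := by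
    rw [H1.mk, pb1, am_node, mk_ch]; rfl
  have k5 : mk (ch (n + 1) △ ch 3) = false := by
    rw [H1.mk, pb1, am_node, mk_ch, am_ch]; rfl
  have k6 : mk (ch n △ (ch 3 △ .nil)) = false := by
    rw [H1.mk, pb, am_node, mk_ch, am_node, mk_ch]; rfl
  have k7 : mk (ch 3) = false := mk_ch 3
  have k8 : mk (.nil △ .nil) = false := rfl
  have k9 : mk (ch 2 △ .nil) = false := mk_ch 3
  have k10 := mk_ch 2
  have k11 := am_ch (n + 1)
  have k12 := mk_ch (n + 1)
  have k13 := am_ch 3
  interval_cases i
  all_goals first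
    | exact absurd rfl h7
    | exact absurd rfl h14
    | (simp only [W, a0, am_app, am_node, aR, mR, k1, k2, k3, k4, k5, k6, k7, k8, k9, k10, k11, k12, k13, c1, c2,
        mk_ch, am_ch, Bool.or_false]; done)
    | skip
  · change am ((ch n △ (ch 2 △ (.nil △ .nil))) △ .nil) = false
    rw [am_node, k1]; rfl
  · change am (ch n △ ((ch 2 △ (.nil △ .nil)) △ .nil)) = false
    rw [am_node, mk_ch, am_node, k3]; rfl
  · change am ((ch n △ (ch 3 △ .nil)) △ .nil) = false
    rw [am_node, k6]; rfl

theorem app2_ne (l : List (BinaryTree Unit)) (a b c : BinaryTree Unit) : l ++ [a, b] ≠ [c] := by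
  intro g
  have := congrArg List.length g
  rw [List.length_append, List.length_cons, List.length_cons, List.length_nil, List.length_cons,
    List.length_nil] at this
  omega

/-- word 7, `(()R)` -/
theorem not_w7 {q n : ℕ} {R B S : BinaryTree Unit} (hn : n ≠ 0) (hR : R ≠ .nil) (hS : S ≠ .nil) {i : ℕ} (hi : i < 20) :
    comps (W R (ch (q + 1)) B S i) ≠ jl n 7 := by
  have sR := List.length_pos_iff.2 (comps_ne hR)
  have sS := List.length_pos_iff.2 (comps_ne hS)
  have nn : ch n ≠ .nil := by rw [Ne, ch_eq_nil]; exact hn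
  have e7 : jl n 7 = [.nil △ (ch n △ ch 3)] := rfl
  have e3 : comps (ch 3) = [ch 2] := rfl
  rw [e7]
  intro h
  have hl := congrArg List.length h
  have cQ : comps (ch (q + 1)) = [ch q] := rfl
  interval_cases i
  all_goals simp only [W, comps_app, comps_node, cQ, List.length_append, List.length_cons, List.length_nil, comps] at hl
  all_goals try (exfalso; omega)
  · -- 3
    simp only [W, comps_node, comps, List.cons.injEq, and_true] at h
    have h2 := congrArg comps h
    rw [comps_app, comps_node, comps_node, comps_node, cQ, e3] at h2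
    rcases hc : comps R with _ | ⟨r1, _ | ⟨r2, l⟩⟩ <;> rw [hc] at h2 <;> simp [app2_ne] at h2
    · exact nn h2.2.1.symm
  · -- 14
    have hB : comps B = [] := by
      apply List.length_eq_zero_iff.1
      omega
    simp only [W, comps_node, hB, List.cons.injEq, and_true] at h
    have h2 := congrArg comps h
    rw [comps_app, comps_node, comps_node, comps_node, cQ, e3] at h2
    simp at h2
    exact nn h2.2.1.symm

/-- word 14, `(()S)B` -/
theorem w14_only {q n : ℕ} {R B S : BinaryTree Unit} (hn : n ≠ 0) (hR : R ≠ .nil) (hS : S ≠ .nil)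
    (aR : am R = true) (aS : am S = true) {i : ℕ} (hi : i < 20)
    (h : comps (W R (ch (q + 1)) B S i) = jl n 14) :
    i = 0 ∧ q = 0 ∧ comps R = [.nil △ ch (n + 1)] := by
  have sR := List.length_pos_iff.2 (comps_ne hR)
  have sS := List.length_pos_iff.2 (comps_ne hS)
  have nn : ch n ≠ .nil := by rw [Ne, ch_eq_nil]; exact hn
  have nn1 : ch (n + 1) ≠ .nil := by rw [Ne, ch_eq_nil]; omega
  have e7 : jl n 14 = [.nil △ ch (n + 1), ch 2] := rfl
  have e3 : comps (ch (n + 1)) = [ch n] := rfl
  rw [e7] at h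
  have hl := congrArg List.length h
  have cQ : comps (ch (q + 1)) = [ch q] := rfl
  have cn : ∀ x, ch x ≠ .nil △ ch (n + 1) := by
    intro x g
    obtain ⟨_, _, _, g2⟩ := ch_eq_node.1 g
    exact nn1 g2
  have am0 : am (.nil △ ch (n + 1)) = false := by
    rw [am_node, mk_nil, am_ch]; rfl
  have am1 : am (.nil △ .nil) = false := rfl
  interval_cases i
  all_goals simp only [W, comps_app, comps_node, cQ, List.length_append, List.length_cons, List.length_nil, comps] at hl
  all_goals try (exfalso; omega)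
  · -- 0
    simp only [W, comps_app, comps_node, comps] at h
    rcases hc : comps R with _ | ⟨r1, _ | ⟨r2, l⟩⟩ <;> rw [hc] at h <;> simp at h
    obtain ⟨h1, h2⟩ := h
    refine ⟨rfl, ?_, by rw [h1]⟩
    have h3 : ch (q + 2) = ch 2 := h2
    have := ch_eq_iff.1 h3
    omega
  · -- 4
    simp only [W, comps_node, List.cons.injEq] at h
    have h2 : ch q △ (.nil △ .nil) = .nil △ ch (n + 1) := h.1
    have h3 : (.nil △ .nil : BinaryTree Unit) = ch n △ .nil := (node_inj h2).2
    exact absurd (node_inj h3).1.symm nn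
  · -- 6
    simp only [W, comps_node, List.cons.injEq] at h
    rw [h.1, am0] at aR
    exact absurd aR (by simp)
  · -- 7
    simp only [W, comps_app, cQ, List.cons_append, List.cons.injEq] at h
    exact absurd h.1 (cn _)
  · -- 9
    simp only [W, comps_node, List.cons.injEq] at h
    exact absurd (node_inj h.1).2.symm nn1
  · -- 10
    have hB : comps B = [] := by
      apply List.length_eq_zero_iff.1
      omega
    simp only [W, comps_app, comps_node, hB, List.nil_append, List.cons.injEq] at h
    exact absurd (node_inj h.1).2.symm nn1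
  · -- 13
    simp only [W, comps_app, comps_node, comps] at h
    rcases hc : comps S with _ | ⟨r1, _ | ⟨r2, l⟩⟩ <;> rw [hc] at h <;> simp at h
    obtain ⟨h1, h2⟩ := h
    have h3 := congrArg comps h2
    rw [comps_app, comps_node, cQ] at h3
    exact absurd h3 (app2_ne _ _ _ _)
  · -- 14
    simp only [W, comps_node, List.cons.injEq] at h
    have h2 : ch q △ (.nil △ S) = .nil △ ch (n + 1) := h.1
    have h3 : (.nil △ S : BinaryTree Unit) = ch n △ .nil := (node_inj h2).2
    exact absurd (node_inj h3).2 hS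
  · -- 15
    simp only [W, comps_node, List.cons.injEq] at h
    exact absurd h.1 (cn _)
  · -- 17
    simp only [W, comps_app, cQ, List.cons_append, List.cons.injEq] at h
    exact absurd h.1 (cn _)
  · -- 19
    simp only [W, comps_node, List.cons.injEq] at h
    have h3 := congrArg comps h.1
    rw [comps_app, comps_node, comps_node, e3] at h3
    rcases hc : comps S with _ | ⟨r1, _ | ⟨r2, l⟩⟩ <;> rw [hc] at h3 <;> simp [comps] at h3
    have hS2 : S = .nil △ .nil := comps_inj (by rw [hc, h3.1]; rfl)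
    rw [hS2, am1] at aS
    exact absurd aS (by simp)

/-- **A - J1**: the only common word is `(()[s])[3]` -/
theorem js_A (h : TyA F g) (h' : TyJs F' g') (hk : 13 ≤ k) (hne : ∀ c ∈ F, contc c ≠ {k - 4} + {3} + {1}) :
    ∀ w ∈ g.B, w ∉ g'.B := by
  intro w hw hw'
  have hm := h.marked w hw
  obtain ⟨q, B1, H, s, B, w0, h1, rfl, rfl⟩ := h
  obtain ⟨n, hn, hnk, h3⟩ := h'.words' hk
  obtain ⟨i, hi, rfl⟩ := mem_gad20.1 hw
  obtain ⟨j, hj, e, _⟩ := h3 _ hw'
  obtain ⟨R, hR⟩ : ∃ R, R = gR B1 H s B := ⟨_, rfl⟩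
  obtain ⟨S, hS⟩ : ∃ S, S = (Tsq.sq (gR B1 H s B)).1 := ⟨_, rfl⟩
  have hA := h1.adm
  have c0 := h1.cont0 w0
  rw [h1.word w0 hi] at hm e
  rw [← hS, ← hR] at hA hm e
  rw [← hR] at c0
  have aR := hA.amR
  have aS := hA.amS
  have R0 : R ≠ .nil := by rintro rfl; exact absurd aR (by simp [am])
  have S0 : S ≠ .nil := by rintro rfl; exact absurd aS (by simp [am])
  by_cases h7 : j = 7
  · subst h7
    exact not_w7 (by omega) R0 S0 hi e
  by_cases h14 : j = 14
  · subst h14
    obtain ⟨_, rfl, hc⟩ := w14_only (by omega) R0 S0 aR aS hi e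
    have hRe : R = (.nil △ ch (n + 1)) △ .nil := comps_inj (by rw [hc]; rfl)
    refine hne _ rfl ?_
    change OddHC.cont _ = _
    rw [c0, hRe, cont_node, cont_node, ch_cont, cont_nil, raise_zero, add_zero,
      raise_top (by intro x hx; rw [Multiset.mem_singleton] at hx; omega)]
    rw [show k - 4 = n + 1 + 1 by omega]
    change {1} + {n + 2} + {3} = {n + 2} + {3} + {1}
    abel
  · have := am_js (n := n) (by omega) hj h7 h14
    rw [← comps_W n hj] at e
    rw [comps_inj e, this] at hm
    exact absurd hm (by simp)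

end J1

end Pool.OddHC
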