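import Pool.Agent.Work.MP_8f87b2_h61.JsT

/-!
MP_8f87b2_co: the gadget J1a at `(s, 3, 2)`, `k ≥ 13`, against the mirrored bare windows A0 (words).
-/

set_option autoImplicit false

namespace Pool.OddHC

open Finset Equiv BinaryTree Pool.Agent.Work.MP_8f87b2_co

namespace J1

open H1

variable {k : ℕ} {F F' : Set (Cyc k)} {g g' : DG k}

/-- the class of a bare word with the content of a word of `TyJs` -/
def Kc (κ j : ℕ) : Prop :=
  (κ = 2 ∧ (j = 1 ∨ j = 2 ∨ j = 5 ∨ j = 11)) ∨ (κ = 4 ∧ (j = 0 ∨ j = 4 ∨ j = 10)) ∨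
    (κ = 5 ∧ (j = 3 ∨ j = 6 ∨ j = 7 ∨ j = 8 ∨ j = 12 ∨ j = 13 ∨ j = 14 ∨ j = 15 ∨ j = 16 ∨ j = 18))

instance (κ j : ℕ) : Decidable (Kc κ j) := by unfold Kc; infer_instance

/-- the small parts of the content -/
def jsm : ℕ → Multiset ℕ
  | 0 => {3} + {2}
  | 1 => {3} + {1} + {1}
  | 2 => {3} + {1} + {1}
  | 3 => {3} + {1}
  | 4 => {3} + {2}
  | 5 => {3} + {1} + {1}
  | 6 => {3} + {1}
  | 7 => {3} + {1}
  | 8 => {3} + {1}
  | 9 => {3}
  | 10 => {3} + {2}
  | 11 => {3} + {1} + {1}
  | 12 => {3} + {1}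
  | 13 => {4} + {1}
  | 14 => {3} + {1}
  | 15 => {3} + {1}
  | 16 => {4} + {1}
  | 17 => {3}
  | 18 => {4} + {1}
  | _ => {4}

theorem jc_eq (n : ℕ) {j : ℕ} (hj : j < 20) : ∃ N, n + 1 ≤ N ∧ jc n j = jsm j + {N} := by
  interval_cases j
  · exact ⟨n + 1, by omega, rfl⟩
  · exact ⟨n + 1, by omega, rfl⟩
  · exact ⟨n + 1, by omega, rfl⟩
  · exact ⟨n + 2, by omega, rfl⟩
  · exact ⟨n + 1, by omega, rfl⟩
  · exact ⟨n + 1, by omega, rfl⟩
  · exact ⟨n + 2, by omega, rfl⟩
  · exact ⟨n + 2, by omega, rfl⟩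
  · exact ⟨n + 2, by omega, rfl⟩
  · exact ⟨n + 3, by omega, rfl⟩
  · exact ⟨n + 1, by omega, rfl⟩
  · exact ⟨n + 1, by omega, rfl⟩
  · exact ⟨n + 2, by omega, rfl⟩
  · exact ⟨n + 1, by omega, rfl⟩
  · exact ⟨n + 2, by omega, rfl⟩
  · exact ⟨n + 2, by omega, rfl⟩
  · exact ⟨n + 1, by omega, rfl⟩
  · exact ⟨n + 3, by omega, rfl⟩
  · exact ⟨n + 1, by omega, rfl⟩
  · exact ⟨n + 2, by omega, rfl⟩

theorem d0 : ∀ j < 20, ∀ κ < 6, ((jsm j).count 1 = (smc 0 κ).count 1 ∧ (jsm j).count 2 = (smc 0 κ).count 2 ∧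
    (κ ≠ 0 ∨ 2 ≤ (jsm j).count 3)) → Kc κ j := by decide

theorem d1 : ∀ j < 20, ∀ κ < 6, ¬ ((jsm j).count 1 = (smc 1 κ).count 1 ∧ (jsm j).count 2 = (smc 1 κ).count 2 ∧
    (jsm j).count 3 = (smc 1 κ).count 3 ∧ (κ ≠ 0 ∨ 2 ≤ (jsm j).count 4) ∧ 1 ≤ (jsm j).count 4) := by decide

theorem d2 : ∀ j < 20, (jsm j).count 5 = 0 ∧ (jsm j).count 6 = 0 ∧ (jsm j).count 7 = 0 ∧
    1 ≤ (jsm j).count 3 + (jsm j).count 4 := by decide

theorem shape {q κ n j : ℕ} {H : Multiset ℕ} (hj : j < 20) (hn : 7 ≤ n) (hκ : κ < 6)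
    (hC : jc n j = smc q κ + H) (hH : ∀ x ∈ H, q + 3 ≤ x) (hp : q + 3 ∈ H ∨ q + 4 ∈ H)
    (h0 : κ = 0 → 2 ≤ H.count (q + 3)) : q = 0 ∧ Kc κ j := by
  obtain ⟨N, hN, e⟩ := jc_eq n hj
  rw [e] at hC
  have c : ∀ v, v ≠ N → (jsm j).count v = (smc q κ).count v + H.count v := by
    intro v hv
    have := congrArg (Multiset.count v) hC
    rwa [Multiset.count_add, Multiset.count_add, Multiset.count_singleton, if_neg hv, add_zero] at this
  have z : ∀ v, v < q + 3 → H.count v = 0 := by
    intro v hv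
    rw [Multiset.count_eq_zero]
    intro h
    have := hH v h
    omega
  have hp' : 1 ≤ H.count (q + 3) ∨ 1 ≤ H.count (q + 4) := by
    rcases hp with h | h
    · exact Or.inl (Multiset.one_le_count_iff_mem.2 h)
    · exact Or.inr (Multiset.one_le_count_iff_mem.2 h)
  have D := d2 j hj
  obtain rfl | rfl | rfl | rfl | hq : q = 0 ∨ q = 1 ∨ q = 2 ∨ q = 3 ∨ 4 ≤ q := by omega
  · refine ⟨rfl, d0 j hj κ hκ ⟨?_, ?_, ?_⟩⟩
    · rw [c 1 (by omega), z 1 (by omega), add_zero]
    · rw [c 2 (by omega), z 2 (by omega), add_zero]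
    · by_cases h : κ = 0
      · right
        have := h0 h
        rw [c 3 (by omega)]
        simp only [zero_add] at this
        omega
      · exact Or.inl h
  · exfalso
    refine d1 j hj κ hκ ⟨?_, ?_, ?_, ?_, ?_⟩
    · rw [c 1 (by omega), z 1 (by omega), add_zero]
    · rw [c 2 (by omega), z 2 (by omega), add_zero]
    · rw [c 3 (by omega), z 3 (by omega), add_zero]
    · by_cases h : κ = 0
      · right
        have := h0 h
        rw [c 4 (by omega)]
        simp only [Nat.reduceAdd] at this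
        omega
      · exact Or.inl h
    · have c4 := c 4 (by omega)
      have c5 := c 5 (by omega)
      simp only [Nat.reduceAdd] at hp'
      omega
  · exfalso
    have c5 := c 5 (by omega)
    have c6 := c 6 (by omega)
    simp only [Nat.reduceAdd] at hp'
    omega
  · exfalso
    have c6 := c 6 (by omega)
    have c7 := c 7 (by omega)
    simp only [Nat.reduceAdd] at hp'
    omega
  · exfalso
    have c3 := c 3 (by omega)
    have c4 := c 4 (by omega)
    have z3 := z 3 (by omega)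
    have z4 := z 4 (by omega)
    have : (smc q κ).count 3 = 0 ∧ (smc q κ).count 4 = 0 := by
      have a1 : (3 : ℕ) ≠ q + 1 := by omega
      have a2 : (4 : ℕ) ≠ q + 1 := by omega
      have a3 : (3 : ℕ) ≠ q + 2 := by omega
      have a4 : (4 : ℕ) ≠ q + 2 := by omega
      interval_cases κ <;>
        simp only [smc, Multiset.count_add, Multiset.count_singleton, Multiset.count_zero, if_neg a1, if_neg a2,
          if_neg a3, if_neg a4] <;> decide
    omega

theorem jl_ht (n : ℕ) : OddHC.ht (ch n) = n := by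
  cases n with
  | zero => rfl
  | succ n => rw [OddHC.ht_eq, ch_cont, Multiset.sup_singleton]

/-- the comparison of the components -/
theorem key_A0 {R B S : BinaryTree Unit} {n : ℕ} (hn : 7 ≤ n) (hR : R ≠ .nil) (hS : 3 < OddHC.ht S) {e : Bool}
    (he : e = true ↔ B = .nil) {i j : ℕ} (hi : i < 20) (hK : Kc (kap e i) j) :
    comps (aw R (ch 1) B S i) ≠ jl n j := by
  have hn0 : ∀ x, x ≠ 0 → ch x ≠ .nil := fun x hx => fun h => hx (ch_eq_nil.1 h)
  have cn : ch n ≠ .nil := hn0 n (by omega)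
  have c2 : ch 2 ≠ .nil := hn0 2 (by omega)
  have c3 : ch 3 ≠ .nil := hn0 3 (by omega)
  have cn' := cn.symm
  have c2' := c2.symm
  have c3' := c3.symm
  have c12 : ch 1 ≠ ch 2 := ch_ne_of (by omega)
  have c1n : ch 1 ≠ ch n := ch_ne_of (by omega)
  have c1 : ch 1 = .nil △ .nil := rfl
  have S2 : S ≠ ch 2 := by
    rintro rfl
    rw [jl_ht] at hS
    omega
  have S3 : S ≠ ch 3 := by
    rintro rfl
    rw [jl_ht] at hS
    omega
  have S0 : S ≠ .nil := by
    rintro rfl
    rw [OddHC.ht] at hS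
    omega
  have sS : comps S ≠ [] := comps_ne S0
  have sS2 : comps S ≠ [ch 2] := by
    intro h
    exact S3 (comps_inj h)
  have Bn : e = false → B ≠ .nil := by
    intro g g1
    rw [he.2 g1] at g
    exact absurd g (by simp)
  have sch : ∀ (x : ℕ) (A B' : BinaryTree Unit), A △ B' = ch x → B' = .nil := by
    intro x A B' h
    obtain ⟨_, _, _, h⟩ := node_eq_ch.1 h
    exact h
  have app0 : ∀ A B' : BinaryTree Unit, app A B' = .nil → B' = .nil := by
    intro A B' h
    cases A with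
    | nil => exact h
    | node _ A C => exact absurd h (by simp [app])
  intro h
  have n1 : (.nil △ (.nil △ B) : BinaryTree Unit) ≠ ch n := fun g => absurd (sch _ _ _ g) (by simp)
  have n2 : (.nil △ (.nil △ B) : BinaryTree Unit) ≠ ch 2 := fun g => absurd (sch _ _ _ g) (by simp)
  have n3 : app S (.nil △ ch 1) ≠ ch 2 := by
    intro g
    have := congrArg comps g
    rw [comps_app] at this
    revert this
    cases comps S <;> simp [comps_node, comps, c1, ch]
  have n4 : app S (.nil △ ch 1) ≠ ch n := by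
    intro g
    have := congrArg comps g
    rw [comps_app] at this
    obtain ⟨m, rfl⟩ : ∃ m, n = m + 1 := ⟨n - 1, by omega⟩
    rw [comps_ch] at this
    revert this
    cases comps S <;> simp [comps_node, comps, c1]
  have n5 : app S (.nil △ ch 1) ≠ .nil := by
    intro g
    exact absurd (app0 _ _ g) (by simp)
  have k2 : ∀ {κ : ℕ}, κ = 2 → Kc κ j → j = 1 ∨ j = 2 ∨ j = 5 ∨ j = 11 := by
    intro κ h1 h2
    unfold Kc at h2
    omega
  have k4 : ∀ {κ : ℕ}, κ = 4 → Kc κ j → j = 0 ∨ j = 4 ∨ j = 10 := by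
    intro κ h1 h2
    unfold Kc at h2
    omega
  have k5 : ∀ {κ : ℕ}, κ = 5 → Kc κ j → j = 3 ∨ j = 6 ∨ j = 7 ∨ j = 8 ∨ j = 12 ∨ j = 13 ∨ j = 14 ∨ j = 15 ∨ j = 16 ∨
      j = 18 := by
    intro κ h1 h2
    unfold Kc at h2
    omega
  have kk : ∀ {κ : ℕ}, κ = 0 ∨ κ = 1 ∨ κ = 3 → Kc κ j → False := by
    intro κ h1 h2
    unfold Kc at h2
    omega
  have q1 : ∀ X, comps (app (ch 1) X) = .nil :: comps X := fun _ => rfl
  have L1 : ∀ (l : List (BinaryTree Unit)) (a b c : BinaryTree Unit), l ++ [a, b] ≠ [c] := by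
    intro l a b c g
    have := congrArg List.length g
    rw [List.length_append, List.length_cons, List.length_cons, List.length_nil, List.length_cons,
      List.length_nil] at this
    omega
  -- the three classes
  have K3 : i = 3 → False := by
    rintro rfl
    simp only [aw, comps_node, comps_app, q1] at h
    rcases k2 rfl hK with rfl | rfl | rfl | rfl <;> simp [jl, comps] at h
  have K7 : i = 7 → False := by
    rintro rfl
    simp only [aw, comps_node, comps_app, q1] at h
    rcases k2 rfl hK with rfl | rfl | rfl | rfl <;> simp [jl, comps, c1] at h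
  have K8 : i = 8 → False := by
    rintro rfl
    simp only [aw, comps_node, comps_app, q1] at h
    rcases k2 rfl hK with rfl | rfl | rfl | rfl <;> simp [jl, comps, c1] at h
  have K12 : i = 12 → False := by
    rintro rfl
    simp only [aw, comps_node, comps_app, q1] at h
    rcases hB : comps B with _ | ⟨b1, _ | ⟨b2, l⟩⟩ <;> rw [hB] at h <;>
      rcases k2 rfl hK with rfl | rfl | rfl | rfl <;>
        simp [jl, comps, cn', c2', S2] at h
  have K13 : e = false → i = 13 → False := by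
    rintro rfl rfl
    simp only [aw, comps_node, comps_app, q1] at h
    rcases k2 rfl hK with rfl | rfl | rfl | rfl
    · simp only [jl, List.cons.injEq] at h
      exact n1 h.1
    · simp only [jl, List.cons.injEq] at h
      exact absurd h.1 (by simp [app, c1])
    · simp only [jl, List.cons.injEq] at h
      exact absurd h.1 (by simp [app, c1])
    · simp only [jl, List.cons.injEq] at h
      exact n2 h.1
  have K14 : i = 14 → False := by
    rintro rfl
    simp only [aw, comps_node, comps_app] at h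
    rcases hB : comps B with _ | ⟨b1, _ | ⟨b2, _ | ⟨b3, _ | ⟨b4, l⟩⟩⟩⟩ <;> rw [hB] at h <;>
      rcases k2 rfl hK with rfl | rfl | rfl | rfl <;>
        simp [jl, comps, n3, n4, n5] at h
  have K18 : e = false → i = 18 → False := by
    rintro rfl rfl
    simp only [aw, comps_node, comps_app] at h
    rcases hB : comps S with _ | ⟨b1, _ | ⟨b2, l⟩⟩ <;> rw [hB] at h sS2 sS <;>
      rcases k2 rfl hK with rfl | rfl | rfl | rfl <;>
        simp [jl, comps, c1, c2', cn', L1] at h sS2 sS
    · exact sS2 h.2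
  have K19 : e = true → i = 19 → False := by
    rintro rfl rfl
    simp only [aw, comps_node, comps_app, q1] at h
    rcases k2 rfl hK with rfl | rfl | rfl | rfl <;> simp [jl, comps, c1] at h
  have K6 : i = 6 → False := by
    rintro rfl
    simp only [aw, comps_node, comps_app, q1] at h
    rcases k4 rfl hK with rfl | rfl | rfl <;> simp [jl, comps] at h
  have K15 : i = 15 → False := by
    rintro rfl
    simp only [aw, comps_node, comps_app, q1] at h
    rcases hB : comps B with _ | ⟨b1, _ | ⟨b2, l⟩⟩ <;> rw [hB] at h <;>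
      rcases k4 rfl hK with rfl | rfl | rfl <;>
        simp [jl, comps, S2, c12, c1n, L1] at h
  have K16 : e = false → i = 16 → False := by
    rintro rfl rfl
    simp only [aw, comps_node, comps_app, q1] at h
    rcases k4 rfl hK with rfl | rfl | rfl
    · simp [jl, c1n] at h
    · simp only [jl, List.cons.injEq] at h
      exact sS2 h.2.2
    · simp [jl, c12] at h
  have K9 : i = 9 → False := by
    rintro rfl
    simp only [aw, comps_node, comps_app, q1] at h
    rcases k5 rfl hK with rfl | rfl | rfl | rfl | rfl | rfl | rfl | rfl | rfl | rfl <;>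
      simp [jl, comps, RR, c3'] at h
  have K17 : i = 17 → False := by
    rintro rfl
    simp only [aw, comps_node, comps_app, q1] at h
    rcases k5 rfl hK with rfl | rfl | rfl | rfl | rfl | rfl | rfl | rfl | rfl | rfl <;>
      simp [jl, comps, RR, c3', c1, c2'] at h
    have h2 := congrArg comps h
    rw [comps_app, comps_node, comps_node, comps_ch] at h2
    rcases hB : comps B with _ | ⟨b1, _ | ⟨b2, l⟩⟩ <;> rw [hB] at h2 <;> simp [comps, S2] at h2
  have K19' : e = false → i = 19 → False := by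
    rintro rfl rfl
    simp only [aw, comps_node, comps_app, q1] at h
    rcases k5 rfl hK with rfl | rfl | rfl | rfl | rfl | rfl | rfl | rfl | rfl | rfl <;>
      simp [jl, comps, RR, c3', c1, cn', S3] at h
  have he' : e = true ∨ e = false := by cases e <;> simp
  interval_cases i
  · exact kk (Or.inl rfl) hK
  · exact kk (Or.inr (Or.inl rfl)) hK
  · exact kk (Or.inr (Or.inl rfl)) hK
  · exact K3 rfl
  · exact kk (Or.inr (Or.inr rfl)) hK
  · exact kk (Or.inr (Or.inr rfl)) hK
  · exact K6 rfl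
  · exact K7 rfl
  · exact K8 rfl
  · exact K9 rfl
  · exact kk (Or.inl rfl) hK
  · exact kk (Or.inr (Or.inl rfl)) hK
  · exact K12 rfl
  · rcases he' with g | g
    · subst g
      exact kk (Or.inr (Or.inr rfl)) hK
    · exact K13 g rfl
  · exact K14 rfl
  · exact K15 rfl
  · rcases he' with g | g
    · subst g
      exact kk (Or.inr (Or.inr rfl)) hK
    · exact K16 g rfl
  · exact K17 rfl
  · rcases he' with g | g
    · subst g
      exact kk (Or.inr (Or.inl rfl)) hK
    · exact K18 g rfl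
  · rcases he' with g | g
    · exact K19 g rfl
    · exact K19' g rfl

/-- **A0 - J1** -/
theorem js_A0 (h : TyA0 F g) (h' : TyJs F' g') (hk : 13 ≤ k) (hm : M2 F) : ∀ w ∈ g.B, w ∉ g'.B := by
  obtain ⟨q, R, B, S, w0, h1, _, rfl, rfl⟩ := h
  obtain ⟨n, hn, _, h3⟩ := h'.words' hk
  intro w hw hw'
  obtain ⟨i, hi, rfl⟩ := mem_gad20M.1 hw
  obtain ⟨j, hj, e1, e2⟩ := h3 _ hw'
  rw [h1.word' w0 hi] at e1 e2
  obtain ⟨e, he⟩ : ∃ e : Bool, e = true ↔ Tsq.mir B = .nil := by
    by_cases g : Tsq.mir B = .nil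
    · exact ⟨true, by simp [g]⟩
    · exact ⟨false, by simp [g]⟩
  obtain ⟨H, c1, c2, c3, c4⟩ := cont_aw h1.a0d he hi
  have hm0 : q + 3 ∈ OddHC.cont (Tsq.mir R) := by
    rw [HM.cont_mir]
    exact hm.mem h1 rfl
  have c3 := c3 hm0
  have c4 := c4 hm0
  have hκ : kap e i < 6 := by
    clear * - hi
    interval_cases i <;> cases e <;> decide
  obtain ⟨rfl, hK⟩ := shape hj hn hκ (e2.symm.trans c1) c2 (c3.imp id fun g => g.2.1) c4
  have hS : 3 < OddHC.ht (Tsq.mir S) := by
    rw [h1.a0d.hS]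
    exact h1.a0d.top
  exact key_A0 hn h1.a0d.R_ne hS he hi hK e1

end J1

end Pool.OddHC
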