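import Pool.Agent.Work.MP_8f87b2_h61.JtW

/-!
MP_8f87b2_co: the MIRRORED gadget J1a at `(s, 4, 2)` (`TyJt`), `k ≥ 13`, against the windows A (words).
-/

set_option autoImplicit false

namespace Pool.OddHC

open Finset Equiv BinaryTree Pool.Agent.Work.MP_8f87b2_co

namespace J1

open H1

variable {k : ℕ} {F F' : Set (Cyc k)} {g g' : DG k}

/-- components of the twenty mirrored words of `R = [n+1][4]` -/
def jm (n : ℕ) : ℕ → List (BinaryTree Unit)
  | 0 => [ch 1, ch 3, ch n]
  | 1 => [.nil, .nil, ch 3, ch n]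
  | 2 => [.nil, ch 3, ch n, .nil]
  | 3 => [.nil △ (ch 3 △ (ch n △ .nil))]
  | 4 => [ch 3, ch n, ch 1]
  | 5 => [ch 3, ch n, .nil, .nil]
  | 6 => [.nil, ch 3 △ (ch n △ .nil)]
  | 7 => [ch 3 △ (ch n △ (.nil △ .nil))]
  | 8 => [ch 3 △ (ch n △ .nil), .nil]
  | 9 => [(ch 3 △ (ch n △ .nil)) △ .nil]
  | 10 => [ch n, ch 1, ch 3]
  | 11 => [ch n, .nil, .nil, ch 3]
  | 12 => [.nil, ch 3, ch (n + 1)]
  | 13 => [.nil △ ch 4, ch n]
  | 14 => [ch 3, ch n △ (.nil △ .nil)]
  | 15 => [ch 3, ch (n + 1), .nil]
  | 16 => [.nil, ch 4, ch n]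
  | 17 => [ch 3 △ (ch (n + 1) △ .nil)]
  | 18 => [ch 4, ch n, .nil]
  | _ => [ch 4 △ (ch n △ .nil)]

theorem jm_eq (n : ℕ) {i : ℕ} (hi : i < 20) : (jt n i).reverse.map Tsq.mir = jm n i := by
  have m0 : Tsq.mir (.nil : BinaryTree Unit) = .nil := rfl
  have m1 := mir_ch_t n
  have m2 := mir_ch_t (n + 1)
  have m3 : Tsq.mir (ch 3) = ch 3 := rfl
  have m4 : Tsq.mir (ch 4) = ch 4 := rfl
  have m5 : Tsq.mir (ch 1) = ch 1 := rfl
  have e4 : ch 4 = ch 3 △ .nil := rfl
  have a0 : ∀ X : BinaryTree Unit, app .nil X = X := fun _ => rfl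
  have a1 : ∀ A X Y : BinaryTree Unit, app (A △ X) Y = A △ app X Y := fun _ _ _ => rfl
  interval_cases i <;>
    simp only [jt, jm, RS, List.reverse_cons, List.reverse_nil, List.nil_append, List.cons_append, List.map_cons,
      List.map_nil, m0, m1, m2, m3, m4, m5, Tsq.mir_node, a0, a1]
  all_goals rfl

theorem comps_mir' (t : BinaryTree Unit) : comps (Tsq.mir t) = (comps t).reverse.map Tsq.mir := by
  induction t with
  | nil => rfl
  | node _ A B _ ihB =>
    change comps (Tsq.mir (A △ B)) = (A :: comps B).reverse.map Tsq.mir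
    rw [Tsq.mir_node, comps_app, ihB, List.reverse_cons, List.map_append]
    rfl

theorem am_comps (t : BinaryTree Unit) : am t = (comps t).any H1.mk := by
  induction t with
  | nil => rfl
  | node _ A B _ ih =>
    rw [comps, List.any_cons, ← ih]
    rfl

/-- the words of `TyJt` are unmarked, except 3 and 13 -/
theorem am_jm {n : ℕ} (hn : 2 ≤ n) {i : ℕ} (hi : i < 20) (h3 : i ≠ 3) (h13 : i ≠ 13) :
    (jm n i).any H1.mk = false := by
  have lt : light (ch n) = false := by
    obtain ⟨m, rfl⟩ : ∃ m, n = m + 2 := ⟨n - 2, by omega⟩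
    rfl
  have pb : ∀ X, PB (ch n △ X) = false := by
    intro X
    change (light (ch n) && _) = false
    rw [lt]; rfl
  have pb3 : ∀ X, PB (ch 3 △ X) = false := fun X => rfl
  have pb4 : ∀ X, PB (ch 4 △ X) = false := fun X => rfl
  have c2 : H1.mk (.nil : BinaryTree Unit) = false := rfl
  have a0 : am (.nil : BinaryTree Unit) = false := rfl
  have k1 : H1.mk (ch 3 △ (ch n △ .nil)) = false := by
    rw [H1.mk, pb3, am_node, mk_ch, am_node, mk_ch]; rfl
  have k2 : H1.mk (ch 3 △ (ch n △ (.nil △ .nil))) = false := by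
    rw [H1.mk, pb3, am_node, mk_ch, am_node, mk_ch]; rfl
  have k3 : H1.mk ((ch 3 △ (ch n △ .nil)) △ .nil) = false := by
    rw [H1.mk, am_node, k1]; rfl
  have k4 : H1.mk (ch n △ (.nil △ .nil)) = false := by
    rw [H1.mk, pb, am_node, mk_ch]; rfl
  have k5 : H1.mk (ch 3 △ (ch (n + 1) △ .nil)) = false := by
    rw [H1.mk, pb3, am_node, mk_ch, am_node, mk_ch]; rfl
  have k6 : H1.mk (ch 4 △ (ch n △ .nil)) = false := by
    rw [H1.mk, pb4, am_node, mk_ch, am_node, mk_ch]; rfl
  interval_cases i
  all_goals first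
    | exact absurd rfl h3
    | exact absurd rfl h13
    | simp only [jm, List.any_cons, List.any_nil, mk_ch, c2, k1, k2, k3, k4, k5, k6, Bool.or_false]

/-- two components `(()[a+1]) [b]` -/
theorem w2_only {q a b : ℕ} {R B S : BinaryTree Unit} (hn : a ≠ 0) (hR : R ≠ .nil) (hS : S ≠ .nil)
    (aR : am R = true) (aS : am S = true) {i : ℕ} (hi : i < 20)
    (h : comps (W R (ch (q + 1)) B S i) = [.nil △ ch (a + 1), ch b]) :
    i = 0 ∧ q + 2 = b ∧ comps R = [.nil △ ch (a + 1)] := by
  have sR := List.length_pos_iff.2 (comps_ne hR)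
  have sS := List.length_pos_iff.2 (comps_ne hS)
  have nn : ch a ≠ .nil := by rw [Ne, ch_eq_nil]; exact hn
  have nn1 : ch (a + 1) ≠ .nil := by rw [Ne, ch_eq_nil]; omega
  have e3 : comps (ch (a + 1)) = [ch a] := rfl
  have hl := congrArg List.length h
  have cQ : comps (ch (q + 1)) = [ch q] := rfl
  have cn : ∀ x, ch x ≠ .nil △ ch (a + 1) := by
    intro x g
    obtain ⟨_, _, _, g2⟩ := ch_eq_node.1 g
    exact nn1 g2
  have am0 : am (.nil △ ch (a + 1)) = false := by
    rw [am_node, mk_nil, am_ch]; rfl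
  have am1 : am (.nil △ .nil) = false := rfl
  interval_cases i
  all_goals simp only [W, comps_app, comps_node, cQ, List.length_append, List.length_cons, List.length_nil, comps] at hl
  all_goals try (exfalso; omega)
  · -- 0
    simp only [W, comps_app, comps_node, comps] at h
    rcases hc : comps R with _ | ⟨r1, _ | ⟨r2, l⟩⟩ <;> rw [hc] at h <;> simp at h
    obtain ⟨h1, h2⟩ := h
    refine ⟨rfl, ?_, by rw [h1]⟩
    have h3 : ch (q + 2) = ch b := h2
    exact ch_eq_iff.1 h3
  · -- 4
    simp only [W, comps_node, List.cons.injEq] at h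
    have h2 : ch q △ (.nil △ .nil) = .nil △ ch (a + 1) := h.1
    have h3 : (.nil △ .nil : BinaryTree Unit) = ch a △ .nil := (node_inj h2).2
    exact absurd (node_inj h3).1.symm nn
  · -- 6
    simp only [W, comps_node, List.cons.injEq] at h
    rw [h.1, am0] at aR
    exact absurd aR (by simp)
  · -- 7
    simp only [W, comps_app, cQ, List.cons_append, List.cons.injEq] at h
    exact absurd h.1 (cn _)
  · -- 9
    simp only [W, comps_node, List.cons.injEq] at h
    exact absurd (node_inj h.1).2.symm nn1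
  · -- 10
    have hB : comps B = [] := by
      apply List.length_eq_zero_iff.1
      omega
    simp only [W, comps_app, comps_node, hB, List.nil_append, List.cons.injEq] at h
    exact absurd (node_inj h.1).2.symm nn1
  · -- 13
    simp only [W, comps_app, comps_node, comps] at h
    rcases hc : comps S with _ | ⟨r1, _ | ⟨r2, l⟩⟩ <;> rw [hc] at h <;> simp at h
    obtain ⟨h1, h2⟩ := h
    have h3 := congrArg comps h2
    rw [comps_app, comps_node, cQ] at h3
    have h4 := congrArg List.length h3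
    rw [List.length_append, List.length_cons, List.length_cons, List.length_nil] at h4
    cases b with
    | zero =>
      change _ = 0 at h4
      omega
    | succ b =>
      change _ = 1 at h4
      omega
  · -- 14
    simp only [W, comps_node, List.cons.injEq] at h
    have h2 : ch q △ (.nil △ S) = .nil △ ch (a + 1) := h.1
    have h3 : (.nil △ S : BinaryTree Unit) = ch a △ .nil := (node_inj h2).2
    exact absurd (node_inj h3).2 hS
  · -- 15
    simp only [W, comps_node, List.cons.injEq] at h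
    exact absurd h.1 (cn _)
  · -- 17
    simp only [W, comps_app, cQ, List.cons_append, List.cons.injEq] at h
    exact absurd h.1 (cn _)
  · -- 19
    simp only [W, comps_node, List.cons.injEq] at h
    have h3 := congrArg comps h.1
    rw [comps_app, comps_node, comps_node, e3] at h3
    rcases hc : comps S with _ | ⟨r1, _ | ⟨r2, l⟩⟩ <;> rw [hc] at h3 <;> simp [comps] at h3
    have hS2 : S = .nil △ .nil := comps_inj (by rw [hc, h3.1]; rfl)
    rw [hS2, am1] at aS
    exact absurd aS (by simp)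

/-- `(()[4][s])` -/
theorem not_m3 {q n : ℕ} {R B S : BinaryTree Unit} (hR : R ≠ .nil) (hS : S ≠ .nil) {i : ℕ} (hi : i < 20) :
    comps (W R (ch (q + 1)) B S i) ≠ jm n 3 := by
  have sR := List.length_pos_iff.2 (comps_ne hR)
  have sS := List.length_pos_iff.2 (comps_ne hS)
  have n3 : ch 3 ≠ .nil := by rw [Ne, ch_eq_nil]; omega
  intro h
  have hl := congrArg List.length h
  have cQ : comps (ch (q + 1)) = [ch q] := rfl
  interval_cases i
  all_goals simp only [W, jm, comps_app, comps_node, cQ, List.length_append, List.length_cons, List.length_nil, comps] at hl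
  all_goals try (exfalso; omega)
  · -- 3
    simp only [W, jm, comps_node, comps, List.cons.injEq, and_true] at h
    have h2 := congrArg comps h
    rw [comps_app, comps_node, comps_node, comps_node, comps_node, cQ] at h2
    rcases hc : comps R with _ | ⟨r1, _ | ⟨r2, l⟩⟩ <;> rw [hc] at h2 <;> simp [comps, app2_ne] at h2
    · exact n3 h2.2.1.symm
  · -- 14
    have hB : comps B = [] := by
      apply List.length_eq_zero_iff.1
      omega
    simp only [W, jm, comps_node, hB, List.cons.injEq, and_true] at h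
    have h2 := congrArg comps h
    rw [comps_app, comps_node, comps_node, comps_node, comps_node, cQ] at h2
    simp at h2
    exact n3 h2.2.1.symm

/-- **A - J1M** -/
theorem jt_A (h : TyA F g) (h' : TyJt F' g') (hk : 13 ≤ k) : ∀ w ∈ g.B, w ∉ g'.B := by
  intro w hw hw'
  have hm := h.marked w hw
  obtain ⟨q, B1, H, s, B, w0, h1, rfl, rfl⟩ := h
  obtain ⟨n, hn, hnk, h3⟩ := h'.words' hk
  obtain ⟨i, hi, rfl⟩ := mem_gad20.1 hw
  obtain ⟨j, hj, e, _⟩ := h3 _ hw'
  have e1 : comps (gX q B1 H s B w0 i).1 = jm n j := by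
    rw [← jm_eq n hj, ← e, ← comps_mir', Tsq.mir_mir]
  obtain ⟨R, hR⟩ : ∃ R, R = gR B1 H s B := ⟨_, rfl⟩
  obtain ⟨S, hS⟩ : ∃ S, S = (Tsq.sq (gR B1 H s B)).1 := ⟨_, rfl⟩
  have hA := h1.adm
  have hb := h1.big
  have ht := h1.ht
  rw [am_comps, e1] at hm
  rw [h1.word w0 hi] at e1
  rw [← hR] at ht
  rw [← hS, ← hR] at hA e1
  have aR := hA.amR
  have aS := hA.amS
  have R0 : R ≠ .nil := by rintro rfl; exact absurd aR (by simp [am])
  have S0 : S ≠ .nil := by rintro rfl; exact absurd aS (by simp [am])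
  by_cases h3 : j = 3
  · subst h3
    exact not_m3 R0 S0 hi e1
  by_cases h13 : j = 13
  · subst h13
    obtain ⟨_, hq, hc⟩ := w2_only (a := 3) (b := n) (by omega) R0 S0 aR aS hi e1
    have hRe : R = (.nil △ ch 4) △ .nil := comps_inj (by rw [hc]; rfl)
    rw [hRe] at ht
    have : OddHC.ht ((.nil △ ch 4) △ .nil) = 5 := rfl
    omega
  · have := am_jm (n := n) (by omega) hj h3 h13
    rw [this] at hm
    exact absurd hm (by simp)

end J1

end Pool.OddHC
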