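import Pool.Agent.Work.MP_8f87b2_end.Red

/-!
MP_8f87b2_co: side conditions of the rows A - J1 (content argument): a group of the middle (`htc ≤ k - 5`) has no member
of content `{k - 4} + {3} + {1}`.
-/

set_option autoImplicit false

namespace Pool.OddHC

open Finset Multiset Equiv BinaryTree Pool.Agent.Work.MP_8f87b2_co

namespace J1

variable {k : ℕ} {F : Set (Cyc k)}

/-- side of W-A-J1, W-Aq-J1, W-Az-J1 -/
theorem side_A_J1 (hk : 5 ≤ k) (hF : ∀ c ∈ F, htc c + 5 ≤ k) : ∀ c ∈ F, contc c ≠ {k - 4} + {3} + {1} := by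
  intro c hc e
  have h := hF c hc
  have h1 : k - 4 ∈ contc c := by
    rw [e]
    exact Multiset.mem_add.2 (Or.inl (Multiset.mem_add.2 (Or.inl (Multiset.mem_singleton_self _))))
  have h2 : k - 4 ≤ htc c := Multiset.le_sup h1
  omega

end J1

end Pool.OddHC
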