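import Pool.Agent.Work.MP_8f87b2_h61.JsW
import Pool.Agent.Work.MP_8f87b2_h63.J4

/-!
MP_8f87b2_co: the classes `(k - 5, 3, 2)` (J1) and `(k - 6, 4, 2)` (J4) are single T-cycles, so a group disjoint from the
group J1 (J4) has no member of this content. Sides of I-J1-J2, I-J1-JE, I-J1-JV, I-J4-J2, I-J4-JE, I-J4-JV and the content
part of I-JV-J1, I-JE-J1, I-JV-J4, I-JE-J4.
-/

set_option autoImplicit false

namespace Pool.OddHC

open Finset Equiv BinaryTree Pool.Agent.Work.MP_8f87b2_co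

namespace J1

open H1

variable {k : ℕ} {F F' : Set (Cyc k)} {g g' : DG k}

/-- every T-cycle of content `(k - 5, 3, 2)` is the one of J1 -/
theorem TyJs.only (h : TyJs F g) (c : Cyc k) (hc : contc c = {3} + {k - 5} + {2}) : c ∈ F := by
  obtain ⟨n, w0, h1, h2, h3, rfl, rfl⟩ := h
  have hk := h2.num
  rw [num_app, ch_num, ch_num] at hk
  have e1 : k - 5 = n + 1 := by omega
  rw [e1] at hc
  obtain ⟨w, rfl⟩ := Quotient.exists_rep c
  have hc' : OddHC.cont w.1 = {n + 1} + {3} + {2} := by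
    have h5 : OddHC.cont w.1 = {3} + {n + 1} + {2} := hc
    rw [h5, add_comm ({3} : Multiset ℕ) {n + 1}]
  have c0 := jX_cont h2 w0
  have e0 : OddHC.cont (app (ch (n + 1)) (ch 3)) = {n + 1} + {3} := by
    rw [cont_app, ch_cont, ch_cont]
  rw [e0] at c0
  exact cyc_eq.2 (same_32 (s := n + 1) (by omega) w _ hc' c0)

theorem TyJs.side (h : TyJs F g) (hd : ∀ c ∈ F, c ∉ F') : ∀ z ∈ F', contc z ≠ {3} + {k - 5} + {2} :=
  fun z hz e => hd z (h.only z e) hz

theorem TyJs.side' (h : TyJs F g) (hd : ∀ c ∈ F', c ∉ F) : ∀ z ∈ F', contc z ≠ {3} + {k - 5} + {2} :=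
  fun z hz e => hd z hz (h.only z e)

/-- every T-cycle of content `(k - 6, 4, 2)` is the one of J4 -/
theorem TyJt.only (h : TyJt F g) (c : Cyc k) (hc : contc c = {4} + {k - 6} + {2}) : c ∈ F := by
  obtain ⟨n, w0, h1, h2, h3, rfl, rfl⟩ := h
  have hk := h2.num
  rw [num_app, ch_num, ch_num] at hk
  have e1 : k - 6 = n + 1 := by omega
  rw [e1] at hc
  obtain ⟨w, rfl⟩ := Quotient.exists_rep c
  have hc' : OddHC.cont w.1 = {n + 1} + {4} + {2} := by
    have h5 : OddHC.cont w.1 = {4} + {n + 1} + {2} := hc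
    rw [h5, add_comm ({4} : Multiset ℕ) {n + 1}]
  have e0 : OddHC.cont (app (ch (n + 1)) (ch 4)) = {n + 1} + {4} := by
    rw [cont_app, ch_cont, ch_cont]
  have c0 : OddHC.cont (jY (app (ch (n + 1)) (ch 4)) (ch 4) (ch (n + 1)) w0 0).1 = {n + 1} + {4} + {2} := by
    rw [jY_cont, jX_cont h2 w0, e0]
  exact cyc_eq.2 (same_42 (s := n + 1) (by omega) w _ hc' c0)

theorem TyJt.side (h : TyJt F g) (hd : ∀ c ∈ F, c ∉ F') : ∀ z ∈ F', contc z ≠ {4} + {k - 6} + {2} :=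
  fun z hz e => hd z (h.only z e) hz

theorem TyJt.side' (h : TyJt F g) (hd : ∀ c ∈ F', c ∉ F) : ∀ z ∈ F', contc z ≠ {4} + {k - 6} + {2} :=
  fun z hz e => hd z hz (h.only z e)

end J1

end Pool.OddHC
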