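import Pool.Agent.Work.MP_8f87b2_h61.JtA

/-!
MP_8f87b2_co: the MIRRORED gadget J1a at `(s, 4, 2)` (`TyJt`), `k ≥ 13`, against the mirrored bare windows A0, B0 (words):
the only collisions are the words 16, 18, 19 of the window `q = 0`, `R = [s][3]`, `B = [3]`, `S = [s]`.
-/

set_option autoImplicit false

namespace Pool.OddHC

open Finset Equiv BinaryTree Pool.Agent.Work.MP_8f87b2_co

namespace J1

open H1

variable {k : ℕ} {F F' : Set (Cyc k)} {g g' : DG k}

/-- the small parts of the content -/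
def jtsm : ℕ → Multiset ℕ
  | 0 => {4} + {2}
  | 1 => {4} + {1} + {1}
  | 2 => {4} + {1} + {1}
  | 3 => {4} + {1}
  | 4 => {4} + {2}
  | 5 => {4} + {1} + {1}
  | 6 => {4} + {1}
  | 7 => {4} + {1}
  | 8 => {4} + {1}
  | 9 => {4}
  | 10 => {4} + {2}
  | 11 => {4} + {1} + {1}
  | 12 => {4} + {1}
  | 13 => {5} + {1}
  | 14 => {4} + {1}
  | 15 => {4} + {1}
  | 16 => {5} + {1}
  | 17 => {4}
  | 18 => {5} + {1}
  | _ => {5}

theorem jtc_eq (n : ℕ) {j : ℕ} (hj : j < 20) : ∃ N, n + 1 ≤ N ∧ jtc n j = jtsm j + {N} := by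
  interval_cases j
  · exact ⟨n + 1, by omega, rfl⟩
  · exact ⟨n + 1, by omega, rfl⟩
  · exact ⟨n + 1, by omega, rfl⟩
  · exact ⟨n + 2, by omega, rfl⟩
  · exact ⟨n + 1, by omega, rfl⟩
  · exact ⟨n + 1, by omega, rfl⟩
  · exact ⟨n + 2, by omega, rfl⟩
  · exact ⟨n + 2, by omega, rfl⟩
  · exact ⟨n + 2, by omega, rfl⟩
  · exact ⟨n + 3, by omega, rfl⟩
  · exact ⟨n + 1, by omega, rfl⟩
  · exact ⟨n + 1, by omega, rfl⟩
  · exact ⟨n + 2, by omega, rfl⟩
  · exact ⟨n + 1, by omega, rfl⟩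
  · exact ⟨n + 2, by omega, rfl⟩
  · exact ⟨n + 2, by omega, rfl⟩
  · exact ⟨n + 1, by omega, rfl⟩
  · exact ⟨n + 3, by omega, rfl⟩
  · exact ⟨n + 1, by omega, rfl⟩
  · exact ⟨n + 2, by omega, rfl⟩

/-- q = 0 -/
def Kt (κ j : ℕ) : Prop :=
  (κ = 2 ∧ (j = 1 ∨ j = 2 ∨ j = 5 ∨ j = 11)) ∨ (κ = 4 ∧ (j = 0 ∨ j = 4 ∨ j = 10)) ∨
    (κ = 5 ∧ (j = 3 ∨ j = 6 ∨ j = 7 ∨ j = 8 ∨ j = 12 ∨ j = 14 ∨ j = 15))

instance (κ j : ℕ) : Decidable (Kt κ j) := by unfold Kt; infer_instance

theorem t0 : ∀ j < 20, ∀ κ < 6, ((jtsm j).count 1 = (smc 0 κ).count 1 ∧ (jtsm j).count 2 = (smc 0 κ).count 2 ∧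
    (κ ≠ 0 ∨ 2 ≤ (jtsm j).count 3) ∧ 1 ≤ (jtsm j).count 4) → Kt κ j := by decide

/-- q = 1 -/
def Ku (κ j : ℕ) : Prop := κ = 5 ∧ (j = 0 ∨ j = 4 ∨ j = 10)

instance (κ j : ℕ) : Decidable (Ku κ j) := by unfold Ku; infer_instance

theorem t1 : ∀ j < 20, ∀ κ < 6, ((jtsm j).count 1 = (smc 1 κ).count 1 ∧ (jtsm j).count 2 = (smc 1 κ).count 2 ∧
    (jtsm j).count 3 = (smc 1 κ).count 3 ∧ (κ ≠ 0 ∨ 2 ≤ (jtsm j).count 4)) → Ku κ j := by decide

theorem t2 : ∀ j < 20, ∀ κ < 6, ¬ ((jtsm j).count 1 = (smc 2 κ).count 1 ∧ (jtsm j).count 2 = (smc 2 κ).count 2 ∧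
    (jtsm j).count 3 = (smc 2 κ).count 3 ∧ (jtsm j).count 4 = (smc 2 κ).count 4 ∧
    (κ ≠ 0 ∨ 2 ≤ (jtsm j).count 5) ∧ 1 ≤ (jtsm j).count 5) := by decide

theorem t3' : ∀ j < 20, (jtsm j).count 3 = 0 ∧ (jtsm j).count 6 = 0 ∧ (jtsm j).count 7 = 0 ∧
    ∀ v, 6 ≤ v → (jtsm j).count v = 0 := by
  intro j hj
  have key : ∀ j < 20, ∀ x ∈ jtsm j, x < 6 := by
    intro j hj
    interval_cases j <;> simp [jtsm]
  refine ⟨?_, ?_, ?_, ?_⟩
  · interval_cases j <;> rfl
  · interval_cases j <;> rfl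
  · interval_cases j <;> rfl
  · intro v hv
    rw [Multiset.count_eq_zero]
    intro h
    have := key j hj v h
    omega

theorem shape_t {q κ n j i k : ℕ} {H : Multiset ℕ} (hj : j < 20) (hn : 6 ≤ n) (hnk : n + 7 = k) (hq : 3 * q + 10 ≤ k)
    (hκ : κ < 6) (hC : jtc n j = smc q κ + H) (hH : ∀ x ∈ H, q + 3 ≤ x)
    (hp : q + 3 ∈ H ∨ (q + 3 ∉ H ∧ q + 4 ∈ H ∧ (i = 13 ∨ i = 16 ∨ i = 18 ∨ i = 19)))
    (h0 : κ = 0 → 2 ≤ H.count (q + 3)) :
    (q = 0 ∧ Kt κ j ∧ (i = 13 ∨ i = 16 ∨ i = 18 ∨ i = 19)) ∨ (q = 1 ∧ Ku κ j) := by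
  obtain ⟨N, hN, e⟩ := jtc_eq n hj
  rw [e] at hC
  have c : ∀ v, v ≠ N → (jtsm j).count v = (smc q κ).count v + H.count v := by
    intro v hv
    have := congrArg (Multiset.count v) hC
    rwa [Multiset.count_add, Multiset.count_add, Multiset.count_singleton, if_neg hv, add_zero] at this
  have z : ∀ v, v < q + 3 → H.count v = 0 := by
    intro v hv
    rw [Multiset.count_eq_zero]
    intro h
    have := hH v h
    omega
  obtain ⟨D3, D6, D7, D⟩ := t3' j hj
  have hp3 : q + 3 ∈ H → 1 ≤ H.count (q + 3) := fun h => Multiset.one_le_count_iff_mem.2 h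
  have hp4 : q + 4 ∈ H → 1 ≤ H.count (q + 4) := fun h => Multiset.one_le_count_iff_mem.2 h
  obtain rfl | rfl | rfl | hq3 : q = 0 ∨ q = 1 ∨ q = 2 ∨ 3 ≤ q := by omega
  · left
    have c3 := c 3 (by omega)
    have c4 := c 4 (by omega)
    rcases hp with h | ⟨_, h, hi⟩
    · have := hp3 h
      simp only [zero_add] at this
      omega
    · refine ⟨rfl, t0 j hj κ hκ ⟨?_, ?_, ?_, ?_⟩, hi⟩
      · rw [c 1 (by omega), z 1 (by omega), add_zero]
      · rw [c 2 (by omega), z 2 (by omega), add_zero]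
      · by_cases h : κ = 0
        · right
          have := h0 h
          simp only [zero_add] at this
          omega
        · exact Or.inl h
      · have := hp4 h
        simp only [zero_add] at this
        omega
  · right
    refine ⟨rfl, t1 j hj κ hκ ⟨?_, ?_, ?_, ?_⟩⟩
    · rw [c 1 (by omega), z 1 (by omega), add_zero]
    · rw [c 2 (by omega), z 2 (by omega), add_zero]
    · rw [c 3 (by omega), z 3 (by omega), add_zero]
    · by_cases h : κ = 0
      · right
        have := h0 h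
        rw [c 4 (by omega)]
        simp only [Nat.reduceAdd] at this
        omega
      · exact Or.inl h
  · exfalso
    have c5 := c 5 (by omega)
    refine t2 j hj κ hκ ⟨?_, ?_, ?_, ?_, ?_, ?_⟩
    · rw [c 1 (by omega), z 1 (by omega), add_zero]
    · rw [c 2 (by omega), z 2 (by omega), add_zero]
    · rw [c 3 (by omega), z 3 (by omega), add_zero]
    · rw [c 4 (by omega), z 4 (by omega), add_zero]
    · by_cases h : κ = 0
      · right
        have := h0 h
        simp only [Nat.reduceAdd] at this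
        omega
      · exact Or.inl h
    · rcases hp with h | ⟨_, h, _⟩
      · have := hp3 h
        simp only [Nat.reduceAdd] at this
        omega
      · have := hp4 h
        have c6 := c 6 (by omega)
        simp only [Nat.reduceAdd] at this
        omega
  · exfalso
    rcases hp with h | ⟨_, h, _⟩
    · have := hp3 h
      have c6 := c (q + 3) (by omega)
      have := D (q + 3) (by omega)
      omega
    · have := hp4 h
      have c6 := c (q + 4) (by omega)
      have := D (q + 4) (by omega)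
      omega

/-- `q = 1` -/
theorem key_t1 {R B S : BinaryTree Unit} {q n i j κ : ℕ} {e : Bool} (hi : i < 20) (hκ : κ = kap e i)
    (hK : Ku κ j) : comps (W R (ch (q + 1)) B S i) ≠ jt n j := by
  have cQ : comps (ch (q + 1)) = [ch q] := rfl
  intro h
  have hl := congrArg List.length h
  have hj : (jt n j).length = 3 := by
    obtain ⟨_, rfl | rfl | rfl⟩ := hK <;> rfl
  rw [hj] at hl
  have h5 : kap e i = 5 := by rw [← hκ]; exact hK.1
  have hi' : i = 9 ∨ i = 17 ∨ i = 19 := by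
    clear * - h5 hi
    interval_cases i <;> cases e <;> simp_all [kap]
  rcases hi' with rfl | rfl | rfl <;>
    simp only [W, comps_app, comps_node, cQ, List.length_append, List.length_cons, List.length_nil, comps] at hl <;>
    omega

/-- `q = 0` -/
theorem key_t0 {R B S : BinaryTree Unit} {n i j : ℕ} {e : Bool} (hn : 6 ≤ n)
    (hi : i = 13 ∨ i = 16 ∨ i = 18 ∨ i = 19) (hK : Kt (kap e i) j)
    (h : comps (W R (ch 1) B S i) = jt n j) : B = ch 3 ∧ S = ch (n + 1) := by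
  have nn : ch n ≠ .nil := by rw [Ne, ch_eq_nil]; omega
  have n3 : ch 3 ≠ .nil := by rw [Ne, ch_eq_nil]; omega
  have n13 : ch 1 ≠ ch 3 := ch_ne_of (by omega)
  have n1n : ch 1 ≠ ch n := ch_ne_of (by omega)
  have cQ : comps (ch 1) = [.nil] := rfl
  have fin : ∀ {X : BinaryTree Unit}, comps S ++ [X] = [ch n, ch 3] → X = ch 3 ∧ S = ch (n + 1) := by
    intro X g
    obtain ⟨g1, g2⟩ := snoc_inj (Y := [ch n]) g
    exact ⟨g2, comps_inj g1⟩
  have k2 : ∀ {κ : ℕ}, κ = 2 → Kt κ j → j = 1 ∨ j = 2 ∨ j = 5 ∨ j = 11 := by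
    intro κ h1 h2
    unfold Kt at h2
    omega
  have k4 : ∀ {κ : ℕ}, κ = 4 → Kt κ j → j = 0 ∨ j = 4 ∨ j = 10 := by
    intro κ h1 h2
    unfold Kt at h2
    omega
  have k5 : ∀ {κ : ℕ}, κ = 5 → Kt κ j → j = 3 ∨ j = 6 ∨ j = 7 ∨ j = 8 ∨ j = 12 ∨ j = 14 ∨ j = 15 := by
    intro κ h1 h2
    unfold Kt at h2
    omega
  have kk : ∀ {κ : ℕ}, κ = 0 ∨ κ = 1 ∨ κ = 3 → Kt κ j → False := by
    intro κ h1 h2
    unfold Kt at h2
    omega
  have L2 : ∀ x, app B (.nil △ ch 1) ≠ ch x := by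
    intro x g
    have h4 := congrArg List.length (congrArg comps g)
    rw [comps_app, comps_node, cQ, List.length_append, List.length_cons, List.length_cons, List.length_nil] at h4
    cases x with
    | zero =>
      change _ = 0 at h4
      omega
    | succ x =>
      change _ = 1 at h4
      omega
  rcases hi with rfl | rfl | rfl | rfl
  · exfalso
    cases e with
    | true => exact kk (Or.inr (Or.inr rfl)) hK
    | false =>
      simp only [W, comps_app, comps_node, comps] at h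
      rcases k2 rfl hK with rfl | rfl | rfl | rfl
      · exact L2 0 (snoc_inj (Y := [ch n, ch 3, .nil]) h).2
      · exact L2 0 (snoc_inj (Y := [.nil, ch n, ch 3]) h).2
      · exact L2 3 (snoc_inj (Y := [.nil, .nil, ch n]) h).2
      · exact L2 n (snoc_inj (Y := [ch 3, .nil, .nil]) h).2
  · cases e with
    | true => exact (kk (Or.inr (Or.inr rfl)) hK).elim
    | false =>
      have h' : (comps S ++ [B]) ++ [ch 1] = jt n j := by
        rw [← h, List.append_assoc]
        simp only [W, comps_app, comps_node, comps]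
        rfl
      rcases k4 rfl hK with rfl | rfl | rfl
      · exact fin (snoc_inj (Y := [ch n, ch 3]) h').1
      · exact absurd (snoc_inj (Y := [ch 1, ch n]) h').2 n13
      · exact absurd (snoc_inj (Y := [ch 3, ch 1]) h').2 n1n
  · cases e with
    | true => exact (kk (Or.inr (Or.inl rfl)) hK).elim
    | false =>
      simp only [W, comps_app, comps_node, comps, cQ, List.cons_append, List.nil_append] at h
      rcases k2 rfl hK with rfl | rfl | rfl | rfl
      · simp only [jt, List.cons.injEq] at h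
        exact absurd h.1.symm nn
      · simp only [jt, List.cons.injEq] at h
        exact absurd h.2.1.symm nn
      · simp only [jt, List.cons.injEq, true_and] at h
        exact fin h
      · simp only [jt, List.cons.injEq] at h
        exact absurd h.1.symm n3
  · cases e with
    | true =>
      exfalso
      simp only [W, comps_node, cQ] at h
      rcases k2 rfl hK with rfl | rfl | rfl | rfl <;> simp [jt] at h
    | false =>
      simp only [W, comps_node, cQ] at h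
      rcases k5 rfl hK with rfl | rfl | rfl | rfl | rfl | rfl | rfl
      · simp [jt] at h
      · simp only [jt, RS, List.cons.injEq, and_true] at h
        have h2 := congrArg comps h
        rw [comps_app] at h2
        exact fin h2
      · simp [jt] at h
      · simp only [jt, RS, List.cons.injEq, and_true] at h
        exact absurd h.2 (by simp)
      · simp [jt] at h
      · simp only [jt, List.cons.injEq, and_true] at h
        exact absurd h.2.symm n3
      · simp [jt] at h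

/-- **the words of a mirrored bare window against the mirrored J1a**: the only exception is `R = [s][3]` -/
theorem jt_M {q : ℕ} {R B S : BinaryTree Unit} (h1 : HM.NodeM k q R B S) (w0 : X k) (h' : TyJt F' g') (hk : 13 ≤ k)
    (hm : q + 3 ∈ OddHC.cont R) (hx : ¬ (q = 0 ∧ B = ch 3 ∧ S = ch (k - 6))) {i : ℕ} (hi : i < 20) :
    HM.mX R B S q w0 i ∉ g'.B := by
  intro hw'
  obtain ⟨n, hn, hnk, h3⟩ := h'.words' hk
  obtain ⟨j, hj, e1, e2⟩ := h3 _ hw'
  have eW : Tsq.mir (HM.mX R B S q w0 i).1 = W R (ch (q + 1)) B S i := by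
    change Tsq.mir (Tsq.mir (wX R B S q w0 i).1) = _
    rw [Tsq.mir_mir, wX_eq h1.dat h1.size w0 hi]
  rw [eW] at e1
  rw [h1.word' w0 hi] at e2
  obtain ⟨e, he⟩ : ∃ e : Bool, e = true ↔ Tsq.mir B = .nil := by
    by_cases g : Tsq.mir B = .nil
    · exact ⟨true, by simp [g]⟩
    · exact ⟨false, by simp [g]⟩
  obtain ⟨H, c1, c2, c3, c4⟩ := cont_aw h1.a0d he hi
  have hm0 : q + 3 ∈ OddHC.cont (Tsq.mir R) := by
    rw [HM.cont_mir]
    exact hm
  have c3 := c3 hm0
  have c4 := c4 hm0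
  have hκ : kap e i < 6 := by
    clear * - hi
    interval_cases i <;> cases e <;> decide
  have hq : 3 * q + 10 ≤ k := by
    have hs := h1.size
    have h2 : q + 3 ∈ OddHC.cont R := hm
    have h3 : R.numNodes = (OddHC.cont R).sum := (OddHC.cont_sum R).symm
    have h4 : (OddHC.cont R).sup ∈ (OddHC.cont R).erase (q + 3) := by
      have h5 := h1.top
      rw [OddHC.ht_eq] at h5
      rw [Multiset.mem_erase_of_ne (by omega)]
      apply sup_mem
      intro h0
      rw [h0] at h2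
      simp at h2
    have h5 : (OddHC.cont R).sum = (q + 3) + ((OddHC.cont R).erase (q + 3)).sum := (Multiset.sum_erase h2).symm
    have h6 : (OddHC.cont R).sup ≤ ((OddHC.cont R).erase (q + 3)).sum := Multiset.single_le_sum (by simp) _ h4
    have h7 := h1.top
    rw [OddHC.ht_eq] at h7
    omega
  have c3' : q + 3 ∈ H ∨ (q + 3 ∉ H ∧ q + 4 ∈ H ∧ (i = 13 ∨ i = 16 ∨ i = 18 ∨ i = 19)) :=
    c3.imp id fun g => ⟨g.1, g.2.1, g.2.2.2⟩
  rcases shape_t hj hn hnk hq hκ (e2.symm.trans c1) c2 c3' c4 with ⟨rfl, hK, hi4⟩ | ⟨rfl, hK⟩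
  · obtain ⟨hB, hS⟩ := key_t0 hn hi4 hK e1
    exact hx ⟨rfl, hB, by rw [hS]; congr 1; omega⟩
  · exact key_t1 hi rfl hK e1

/-- **A0 - J1M** -/
theorem jt_A0 (h : TyA0 F g) (h' : TyJt F' g') (hk : 13 ≤ k) (hm : M2 F) (hne : ∀ c ∈ F, contc c ≠ {k - 6} + {3} + {3}) :
    ∀ w ∈ g.B, w ∉ g'.B := by
  obtain ⟨q, R, B, S, w0, h1, _, rfl, rfl⟩ := h
  intro w hw
  obtain ⟨i, hi, rfl⟩ := mem_gad20M.1 hw
  refine jt_M h1 w0 h' hk (hm.mem h1 rfl) ?_ hi
  rintro ⟨rfl, hB, hS⟩
  refine hne _ rfl ?_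
  change OddHC.cont _ = _
  rw [h1.cont0, ← h1.eq, hB, hS]
  obtain ⟨m, hm⟩ : ∃ m, k - 6 = m + 1 := ⟨k - 7, by omega⟩
  rw [hm, ch_cont m, show OddHC.cont (ch 3) = {3} from ch_cont 2]
  abel

/-- **B0 - J1M** -/
theorem jt_B0 (h : TyB0 F g) (h' : TyJt F' g') (hk : 13 ≤ k) (hm : M2 F) (hne : ∀ c ∈ F, contc c ≠ {k - 6} + {3} + {3}) :
    ∀ w ∈ g.B, w ∉ g'.B := by
  obtain ⟨q, R, B, S, w0, h1, _, _, _, rfl, rfl⟩ := h
  intro w hw
  obtain ⟨i, hi, _, rfl⟩ := mem_gadSM.1 hw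
  refine jt_M h1 w0 h' hk (hm.mem h1 (w0 := w0) (Or.inl rfl)) ?_ hi
  rintro ⟨rfl, hB, hS⟩
  refine hne _ (Or.inl rfl) ?_
  change OddHC.cont _ = _
  rw [h1.cont0, ← h1.eq, hB, hS]
  obtain ⟨m, hm⟩ : ∃ m, k - 6 = m + 1 := ⟨k - 7, by omega⟩
  rw [hm, ch_cont m, show OddHC.cont (ch 3) = {3} from ch_cont 2]
  abel

end J1

end Pool.OddHC
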