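import Pool.Agent.Work.MP_8f87b2_h14.P5J
import Pool.Agent.Work.MP_8f87b2_h61.JsPl

/-!
MP_8f87b2_co: rows of P5, P5M with the ONE E triple inside: `X = ()(S)` (P5), `X = (S)()` (P5M). `TyP5D.rowX`,
`TyP5MD.rowX`: a row of P5 needs the row of the E triple only for this `X`. So P5 / P5M against J1, J4 without side condition.
-/

set_option autoImplicit false

namespace Pool.OddHC

open Finset Equiv BinaryTree Pool.Agent.Work.MP_8f87b2_co P5

variable {k : ℕ} {F F' : Set (Cyc k)} {g g' : DG k} {S : BinaryTree Unit}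

/-- the E triple inside P5, `X = ()(S)` -/
theorem TyP5D.EX (h : TyP5D S F g) : ∃ (FE : Set (Cyc k)) (gE : DG k), TyEd FE gE ∧
    IsTri .nil (w1 (lp 1) S (lp 0)) .nil FE gE ∧ (∀ c ∈ FE, c ∈ F) ∧
    ∀ x ∈ g.B, (x.1 = wR S 0 ∨ x.1 = wR S 1 ∨ x.1 = wR S 4) → x ∈ gE.B := by
  obtain ⟨hP, w, hw, hinj, hF, hg⟩ := h
  have hv : ∀ i < 5, (w i).1 = wR S i := fun i hi => by rw [hw i hi, wR_eq S i hi]
  have h2 : 2 ≤ OddHC.ht S := by have := hP.ht; omega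
  obtain ⟨t0, t1, t2, t3, t4⟩ := ht_wR h2
  have e1 : htc (cyc (w 1)) = OddHC.ht S + 1 := by rw [htc_cyc, hv 1 (by norm_num), t1]
  have e4 : htc (cyc (w 4)) = OddHC.ht S + 1 := by rw [htc_cyc, hv 4 (by norm_num), t4]
  have e0 : htc (cyc (w 0)) = OddHC.ht S + 2 := by rw [htc_cyc, hv 0 (by norm_num), t0]
  have ht : IsTri .nil (w1 (lp 1) S (lp 0)) .nil {cyc (w 1), cyc (w 4)}
      (pDG {w 0, w 1, w 4} (cyc (w 1)) (cyc (w 4)) ∅) := by
    refine ⟨w 0, w 1, w 4, hv 0 (by norm_num), hv 1 (by norm_num), hv 4 (by norm_num), ?_, ?_, ?_,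
      rfl, rfl⟩
    · intro e
      exact absurd (hinj 1 (by norm_num) 4 (by norm_num) e) (by norm_num)
    · rw [e1, e4]
    · rw [e1, e0]; omega
  refine ⟨_, _, tri_Ed hP ht, ht, ?_, ?_⟩
  · rw [hF]
    rintro c (rfl | rfl)
    · simp [F4]
    · simp [F4]
  · intro x _ hx
    have : x = w 0 ∨ x = w 1 ∨ x = w 4 := by
      rcases hx with e | e | e
      · exact Or.inl (Subtype.ext (e.trans (hv 0 (by norm_num)).symm))
      · exact Or.inr (Or.inl (Subtype.ext (e.trans (hv 1 (by norm_num)).symm)))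
      · exact Or.inr (Or.inr (Subtype.ext (e.trans (hv 4 (by norm_num)).symm)))
    rcases this with rfl | rfl | rfl <;> simp [pDG]

/-- the E triple inside P5M, `X = (S)()` -/
theorem TyP5MD.EX (h : TyP5MD S F g) : ∃ (FE : Set (Cyc k)) (gE : DG k), TyEd FE gE ∧
    IsTri .nil (w1 (lp 0) S (lp 1)) .nil FE gE ∧ (∀ c ∈ FE, c ∈ F) ∧
    ∀ x ∈ g.B, (x.1 = wM S 0 ∨ x.1 = wM S 1 ∨ x.1 = wM S 4) → x ∈ gE.B := by
  obtain ⟨hP, w, hw, hinj, hF, hg⟩ := h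
  have hv : ∀ i < 5, (w i).1 = wM S i := fun i hi => by rw [hw i hi, wM_eq S i hi]
  have h2 : 2 ≤ OddHC.ht S := by have := hP.ht; omega
  obtain ⟨t0, t1, t2, t3, t4⟩ := ht_wM h2
  have e1 : htc (cyc (w 1)) = OddHC.ht S + 1 := by rw [htc_cyc, hv 1 (by norm_num), t1]
  have e4 : htc (cyc (w 4)) = OddHC.ht S + 1 := by rw [htc_cyc, hv 4 (by norm_num), t4]
  have e0 : htc (cyc (w 0)) = OddHC.ht S + 2 := by rw [htc_cyc, hv 0 (by norm_num), t0]
  have ht : IsTri .nil (w1 (lp 0) S (lp 1)) .nil {cyc (w 1), cyc (w 4)}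
      (pDG {w 0, w 1, w 4} (cyc (w 1)) (cyc (w 4)) ∅) := by
    refine ⟨w 0, w 1, w 4, hv 0 (by norm_num), hv 1 (by norm_num), hv 4 (by norm_num), ?_, ?_, ?_,
      rfl, rfl⟩
    · intro e
      exact absurd (hinj 1 (by norm_num) 4 (by norm_num) e) (by norm_num)
    · rw [e1, e4]
    · rw [e1, e0]; omega
  refine ⟨_, _, tri_Ed hP ht, ht, ?_, ?_⟩
  · rw [hF]
    rintro c (rfl | rfl)
    · simp [F4]
    · simp [F4]
  · intro x _ hx
    have : x = w 0 ∨ x = w 1 ∨ x = w 4 := by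
      rcases hx with e | e | e
      · exact Or.inl (Subtype.ext (e.trans (hv 0 (by norm_num)).symm))
      · exact Or.inr (Or.inl (Subtype.ext (e.trans (hv 1 (by norm_num)).symm)))
      · exact Or.inr (Or.inr (Subtype.ext (e.trans (hv 4 (by norm_num)).symm)))
    rcases this with rfl | rfl | rfl <;> simp [pDG]

/-- **A ROW OF P5**: the row of the E triple with `X = ()(S)`, and the words `S(())()` and `(()())S` -/
theorem TyP5D.rowX (h : TyP5D S F g) (hd : ∀ c ∈ F, c ∉ F')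
    (hE : ∀ (FE : Set (Cyc k)) (gE : DG k), TyEd FE gE → IsTri .nil (w1 (lp 1) S (lp 0)) .nil FE gE →
      (∀ c ∈ FE, c ∉ F') → ∀ w ∈ gE.B, w ∉ g'.B)
    (h2 : ∀ w ∈ g'.B, cyc w ∉ F' → w.1 ≠ app S (o △ o))
    (h3 : ∀ w ∈ g'.B, cyc w ∉ F' → w.1 ≠ (.nil △ o) △ S) : ∀ w ∈ g.B, w ∉ g'.B := by
  intro w hw hw'
  obtain ⟨FE, gE, hT, ht, hs, hm⟩ := h.EX
  have hE' := hE FE gE hT ht (fun c hc => hd c (hs c hc))
  rcases h.mem w hw with ⟨e, -⟩ | ⟨hc, e | e | e | e⟩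
  · exact hE' w (hm w hw (Or.inl e)) hw'
  · exact hE' w (hm w hw (Or.inr (Or.inl e))) hw'
  · exact h2 w hw' (hd _ hc) e
  · exact h3 w hw' (hd _ hc) e
  · exact hE' w (hm w hw (Or.inr (Or.inr e))) hw'

/-- **A ROW OF P5M**: the row of the E triple with `X = (S)()`, and the words `()(())S` and `S(()())` -/
theorem TyP5MD.rowX (h : TyP5MD S F g) (hd : ∀ c ∈ F, c ∉ F')
    (hE : ∀ (FE : Set (Cyc k)) (gE : DG k), TyEd FE gE → IsTri .nil (w1 (lp 0) S (lp 1)) .nil FE gE →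
      (∀ c ∈ FE, c ∉ F') → ∀ w ∈ gE.B, w ∉ g'.B)
    (h2 : ∀ w ∈ g'.B, cyc w ∉ F' → w.1 ≠ .nil △ (o △ S))
    (h3 : ∀ w ∈ g'.B, cyc w ∉ F' → w.1 ≠ app S ((.nil △ o) △ .nil)) : ∀ w ∈ g.B, w ∉ g'.B := by
  intro w hw hw'
  obtain ⟨FE, gE, hT, ht, hs, hm⟩ := h.EX
  have hE' := hE FE gE hT ht (fun c hc => hd c (hs c hc))
  rcases h.mem w hw with ⟨e, -⟩ | ⟨hc, e | e | e | e⟩
  · exact hE' w (hm w hw (Or.inl e)) hw'
  · exact hE' w (hm w hw (Or.inr (Or.inl e))) hw'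
  · exact h3 w hw' (hd _ hc) e
  · exact h2 w hw' (hd _ hc) e
  · exact hE' w (hm w hw (Or.inr (Or.inr e))) hw'

namespace P5J

open H1 J1

theorem cX (S : BinaryTree Unit) : comps (w1 (lp 1) S (lp 0)) = [.nil, S] := rfl

theorem cXm (S : BinaryTree Unit) : comps (w1 (lp 0) S (lp 1)) = [S, .nil] := rfl

theorem not_crX {n : ℕ} (hn : n ≠ 0) (S : BinaryTree Unit) :
    ¬ CrX n (w1 (lp 1) S (lp 0)) ∧ ¬ CrX n (w1 (lp 0) S (lp 1)) := by
  have n0 : ch n ≠ .nil := chn hn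
  have n1 : ch (n + 1) ≠ .nil := chn (by omega)
  have n2 : ch 2 ≠ .nil := chn (by norm_num)
  have n3 : ch 3 ≠ .nil := chn (by norm_num)
  constructor
  · unfold CrX
    rw [cX]
    rintro (e | e | e | e | e) <;> simp only [List.cons.injEq, reduceCtorEq, and_false] at e
    · exact n1 e.1.symm
    · exact n0 e.1.symm
  · unfold CrX
    rw [cXm]
    rintro (e | e | e | e | e) <;> simp only [List.cons.injEq, reduceCtorEq, and_false] at e
    · exact n2 e.2.1.symm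
    · exact n3 e.2.1.symm

theorem mirX1 (S : BinaryTree Unit) : Tsq.mir (w1 (lp 1) S (lp 0)) = w1 (lp 0) (Tsq.mir S) (lp 1) := by
  have h0 : Tsq.mir BinaryTree.nil = BinaryTree.nil := rfl
  change Tsq.mir (.nil △ (S △ .nil)) = Tsq.mir S △ (.nil △ .nil)
  simp only [Tsq.mir_node, h0, app]

theorem mirX2 (S : BinaryTree Unit) : Tsq.mir (w1 (lp 0) S (lp 1)) = w1 (lp 1) (Tsq.mir S) (lp 0) := by
  have h0 : Tsq.mir BinaryTree.nil = BinaryTree.nil := rfl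
  change Tsq.mir (S △ (.nil △ .nil)) = .nil △ (Tsq.mir S △ .nil)
  simp only [Tsq.mir_node, h0, app]

theorem not_crY {n : ℕ} (hn : n ≠ 0) (S : BinaryTree Unit) :
    ¬ CrY n (w1 (lp 1) S (lp 0)) ∧ ¬ CrY n (w1 (lp 0) S (lp 1)) := by
  have n0 : ch n ≠ .nil := chn hn
  have n1 : ch (n + 1) ≠ .nil := chn (by omega)
  have n3 : ch 3 ≠ .nil := chn (by norm_num)
  have n4 : ch 4 ≠ .nil := chn (by norm_num)
  constructor
  · unfold CrY
    rw [cX]
    rintro (e | e | e | e | e) <;> simp only [List.cons.injEq, reduceCtorEq, and_false] at e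
    · exact n1 e.1.symm
    · exact n0 e.1.symm
  · unfold CrY
    rw [cXm]
    rintro (e | e | e | e | e) <;> simp only [List.cons.injEq, reduceCtorEq, and_false] at e
    · exact n3 e.2.1.symm
    · exact n4 e.2.1.symm

end P5J

open P5J H1 J1

/-- **P5 - J1**, no side condition -/
theorem TyP5D.x_J1 (h : TyP5D S F g) (h' : J1.TyJs F' g') (hd : ∀ c ∈ F, c ∉ F') : ∀ w ∈ g.B, w ∉ g'.B := by
  obtain ⟨n, h1, -, h3, -⟩ := h'.words
  refine h.rowX hd (fun FE gE _ ht hs => js_E' ht h' hs fun m hm _ => (not_crX (by omega) S).1) ?_ ?_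
  · intro w hw _ e
    obtain ⟨i, hi, e1⟩ := h3 w hw
    rw [e, l1] at e1
    exact (key1 h1 (comps_ne h.1.ne) i hi).1 e1
  · intro w hw _ e
    obtain ⟨i, hi, e1⟩ := h3 w hw
    rw [e, l2] at e1
    exact (key1 h1 (comps_ne h.1.ne) i hi).2.1 e1

/-- **P5M - J1**, no side condition -/
theorem TyP5MD.x_J1 (h : TyP5MD S F g) (h' : J1.TyJs F' g') (hd : ∀ c ∈ F, c ∉ F') : ∀ w ∈ g.B, w ∉ g'.B := by
  obtain ⟨n, h1, -, h3, -⟩ := h'.words
  refine h.rowX hd (fun FE gE _ ht hs => js_E' ht h' hs fun m hm _ => (not_crX (by omega) S).2) ?_ ?_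
  · intro w hw _ e
    obtain ⟨i, hi, e1⟩ := h3 w hw
    rw [e, l4] at e1
    exact (key1 h1 (comps_ne h.1.ne) i hi).2.2.2 e1
  · intro w hw _ e
    obtain ⟨i, hi, e1⟩ := h3 w hw
    rw [e, l3] at e1
    exact (key1 h1 (comps_ne h.1.ne) i hi).2.2.1 e1

/-- **P5 - J4**, no side condition -/
theorem TyP5D.x_J4 (h : TyP5D S F g) (h' : J1.TyJt F' g') (hd : ∀ c ∈ F, c ∉ F') : ∀ w ∈ g.B, w ∉ g'.B := by
  obtain ⟨n, h1, -, h3, -⟩ := h'.words
  have hm := comps_ne (mir_ne0 h.1.ne)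
  refine h.rowX hd (fun FE gE _ ht hs => jt_E' ht h' hs fun m hm _ => ?_) ?_ ?_
  · rw [mirX1]
    exact (not_crY (by omega) _).2
  · intro w hw _ e
    obtain ⟨i, hi, e1⟩ := h3 w hw
    rw [e, mir_l1, l4] at e1
    exact (key4 h1 hm i hi).2.2.2 e1
  · intro w hw _ e
    obtain ⟨i, hi, e1⟩ := h3 w hw
    rw [e, mir_l2, l3] at e1
    exact (key4 h1 hm i hi).2.2.1 e1

/-- **P5M - J4**, no side condition -/
theorem TyP5MD.x_J4 (h : TyP5MD S F g) (h' : J1.TyJt F' g') (hd : ∀ c ∈ F, c ∉ F') : ∀ w ∈ g.B, w ∉ g'.B := by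
  obtain ⟨n, h1, -, h3, -⟩ := h'.words
  have hm := comps_ne (mir_ne0 h.1.ne)
  refine h.rowX hd (fun FE gE _ ht hs => jt_E' ht h' hs fun m hm _ => ?_) ?_ ?_
  · rw [mirX2]
    exact (not_crY (by omega) _).1
  · intro w hw _ e
    obtain ⟨i, hi, e1⟩ := h3 w hw
    rw [e, mir_l4, l1] at e1
    exact (key4 h1 hm i hi).1 e1
  · intro w hw _ e
    obtain ⟨i, hi, e1⟩ := h3 w hw
    rw [e, mir_l3, l2] at e1
    exact (key4 h1 hm i hi).2.1 e1

end Pool.OddHC
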